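import Mathlib
import Pool.Agent.H25.Q1.Series

/-!
# The weight of a tie in the extended strip `-π/8 ≤ Re ≤ 9π/8`

Design Z: the headings N, E, S of the line have the relative rapidities `φ - π/2`, `φ`, `φ + π/2` with
`Re φ = π/2`.
-/

set_option autoImplicit false

open Complex Set Filter Topology

namespace Pool.Agent.H53.FM

open Pool.Agent.H25.Q1.Close

/-- the extended strip -/
def UB : Set ℂ := {z | -(Real.pi / 8) < z.re ∧ z.re < 9 * Real.pi / 8}

/-- the first half of the extended strip -/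
def VB : Set ℂ := {z | -(Real.pi / 8) < z.re ∧ z.re < 5 * Real.pi / 8}

/-- the part `|Im z| < Y` of the extended strip -/
def UBY (Y : ℝ) : Set ℂ := {z | z ∈ UB ∧ |z.im| < Y}

theorem isOpen_UB : IsOpen UB :=
  (isOpen_lt continuous_const continuous_re).inter (isOpen_lt continuous_re continuous_const)

theorem isOpen_VB : IsOpen VB :=
  (isOpen_lt continuous_const continuous_re).inter (isOpen_lt continuous_re continuous_const)

theorem isOpen_UBY (Y : ℝ) : IsOpen (UBY Y) :=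
  isOpen_UB.inter (isOpen_lt (continuous_abs.comp continuous_im) continuous_const)

theorem convex_VB : Convex ℝ VB :=
  (convex_halfSpace_re_gt _).inter (convex_halfSpace_re_lt _)

theorem U_subset_UB : U ⊆ UB := by
  have := Real.pi_pos
  intro z hz
  exact ⟨by linarith [hz.1], by linarith [hz.2]⟩

theorem UY_subset_UBY (Y : ℝ) : UY Y ⊆ UBY Y := fun _ hz => ⟨U_subset_UB hz.1, hz.2⟩

theorem V_subset_VB : V ⊆ VB := by
  have := Real.pi_pos
  intro z hz
  exact ⟨by linarith [hz.1], by linarith [hz.2]⟩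

theorem VB_subset_UB : VB ⊆ UB := by
  have := Real.pi_pos
  intro z hz
  exact ⟨hz.1, by linarith [hz.2]⟩

theorem shiftB_mem {z : ℂ} (hz : z ∈ VB) : z + (Real.pi / 2 : ℝ) ∈ UB := by
  have := Real.pi_pos
  constructor
  · simp only [add_re, ofReal_re]; linarith [hz.1]
  · simp only [add_re, ofReal_re]; linarith [hz.2]

/-! ### the weight -/

theorem cos_le_quarter {x : ℝ} (h1 : 7 * Real.pi / 12 ≤ x) (h2 : x ≤ 17 * Real.pi / 12) :
    Real.cos x ≤ -(1 / 4) := by
  have hpi := Real.pi_pos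
  have hp1 := Real.pi_gt_d2
  have hp2 := Real.pi_lt_d2
  have e : Real.cos x = - Real.cos (x - Real.pi) := by rw [Real.cos_sub_pi]; ring
  have h3 : |x - Real.pi| ≤ 5 * Real.pi / 12 := by rw [abs_le]; constructor <;> linarith
  have h4 : Real.cos (5 * Real.pi / 12) ≤ Real.cos |x - Real.pi| :=
    Real.cos_le_cos_of_nonneg_of_le_pi (abs_nonneg _) (by linarith) h3
  rw [Real.cos_abs] at h4
  have h5 : Real.cos (5 * Real.pi / 12) = Real.sin (Real.pi / 12) := by
    rw [← Real.cos_pi_div_two_sub]; congr 1; ring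
  have h6 : 1 / 4 ≤ Real.sin (Real.pi / 12) := by
    have h7 := Real.sin_gt_sub_cube (x := Real.pi / 12) (by positivity)
    have h8 : (Real.pi / 12) ^ 3 ≤ 0.27 ^ 3 := pow_le_pow_left₀ (by positivity) (by linarith) 3
    have h9 : (3.14 : ℝ) / 12 ≤ Real.pi / 12 := by linarith
    nlinarith
  rw [e]; linarith

/-- the condition used below -/
def Cz (z : ℂ) : Prop := Real.cos (2 * (z.re + Real.pi) / 3) ≤ -(1 / 4)

theorem cz_of {z : ℂ} (h1 : -(Real.pi / 8) ≤ z.re) (h2 : z.re ≤ 9 * Real.pi / 8) : Cz z :=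
  cos_le_quarter (by linarith) (by linarith)

theorem cz_UB {z : ℂ} (hz : z ∈ UB) : Cz z := cz_of hz.1.le hz.2.le

variable {z : ℂ}

theorem sin_neB (hc : Cz z) : Complex.sin ((z + (Real.pi : ℂ)) / 3) ≠ 0 := by
  intro h
  have e := sin_sq_eq z
  rw [h] at e
  have hn := normSq_one_sub_cos (2 * (z.re + Real.pi) / 3) (2 * z.im / 3)
  have h0 : 1 - Complex.cos (((2 * (z.re + Real.pi) / 3 : ℝ) : ℂ) +
      ((2 * z.im / 3 : ℝ) : ℂ) * I) = 0 := by
    have : (1 - Complex.cos (((2 * (z.re + Real.pi) / 3 : ℝ) : ℂ) +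
        ((2 * z.im / 3 : ℝ) : ℂ) * I)) / 2 = 0 := by
      rw [← e]; simp
    linear_combination 2 * this
  rw [h0, map_zero] at hn
  have h1 := Real.one_le_cosh (2 * z.im / 3)
  unfold Cz at hc
  nlinarith

theorem one_sub_awB (hc : Cz z) :
    1 - aw z = Complex.sin (z / 3) / Complex.sin ((z + (Real.pi : ℂ)) / 3) := by
  have hs := sin_neB hc
  unfold aw
  rw [eq_div_iff hs, sub_mul, one_mul, div_mul_cancel₀ _ hs]
  have e1 : (z + (Real.pi : ℂ)) / 3 = (Real.pi : ℂ) / 3 + z / 3 := by ring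
  have e2 : ((Real.pi : ℂ) - z) / 3 = (Real.pi : ℂ) / 3 - z / 3 := by ring
  rw [e1, e2, Complex.sin_add, Complex.sin_sub]
  have hc : Complex.cos ((Real.pi : ℂ) / 3) = 1 / 2 := by
    have := congrArg (fun r : ℝ => (r : ℂ)) Real.cos_pi_div_three
    push_cast at this
    exact this
  rw [hc]; ring

theorem sw_eqB (hc : Cz z) : sw z = 1 - 3 / (4 * Complex.sin ((z + (Real.pi : ℂ)) / 3) ^ 2) := by
  have hs := sin_neB hc
  unfold sw
  rw [one_sub_awB hc]
  unfold aw
  have e1 : (z + (Real.pi : ℂ)) / 3 = (Real.pi : ℂ) / 3 + z / 3 := by ring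
  have e2 : ((Real.pi : ℂ) - z) / 3 = (Real.pi : ℂ) / 3 - z / 3 := by ring
  have key : Complex.sin (((Real.pi : ℂ) - z) / 3) * Complex.sin (z / 3) =
      Complex.sin ((z + (Real.pi : ℂ)) / 3) ^ 2 - 3 / 4 := by
    rw [e1, e2, Complex.sin_add, Complex.sin_sub]
    have hc : Complex.cos ((Real.pi : ℂ) / 3) = 1 / 2 := by
      have := congrArg (fun r : ℝ => (r : ℂ)) Real.cos_pi_div_three
      push_cast at this
      exact this
    have hs3 := sin_pi_third_sq
    have hz := Complex.sin_sq_add_cos_sq (z / 3)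
    rw [hc]
    linear_combination (-(Complex.cos (z / 3)) ^ 2) * hs3 + (-(3 : ℂ) / 4) * hz
  field_simp
  linear_combination 4 * key

theorem sw_subB (hc : Cz z) : sw z =
    -((1 / 2 + Complex.cos (((2 * (z.re + Real.pi) / 3 : ℝ) : ℂ) + ((2 * z.im / 3 : ℝ) : ℂ) * I)) /
      (1 - Complex.cos (((2 * (z.re + Real.pi) / 3 : ℝ) : ℂ) + ((2 * z.im / 3 : ℝ) : ℂ) * I))) := by
  have hs := sin_neB hc
  rw [sw_eqB hc]
  have e := sin_sq_eq z
  set w := Complex.cos (((2 * (z.re + Real.pi) / 3 : ℝ) : ℂ) + ((2 * z.im / 3 : ℝ) : ℂ) * I) with hw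
  have hne : (1 - w) ≠ 0 := by
    intro h0
    rw [h0] at e
    apply hs
    have : Complex.sin ((z + (Real.pi : ℂ)) / 3) ^ 2 = 0 := by rw [e]; simp
    exact pow_eq_zero_iff (two_ne_zero) |>.1 this
  rw [e]
  field_simp
  ring

/-- **The bound for the kept-cap weight in the extended strip.** -/
theorem norm_sw_leB (hcz : Cz z) : ‖sw z‖ ≤ 1 - 3 / 16 * Real.exp (-(2 * |z.im| / 3)) := by
  set X := Real.cosh (2 * z.im / 3) with hX
  set c := Real.cos (2 * (z.re + Real.pi) / 3) with hc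
  have hc1 : c ≤ -(1 / 4) := hcz
  have hc2 : -1 ≤ c := Real.neg_one_le_cos _
  have hX1 : 1 ≤ X := Real.one_le_cosh _
  have hsq : ‖sw z‖ ^ 2 = (X ^ 2 + c * X + c ^ 2 - 3 / 4) / (X - c) ^ 2 := by
    rw [sw_subB hcz, norm_neg, norm_div, div_pow, ← normSq_eq_norm_sq, ← normSq_eq_norm_sq,
      normSq_half_add_cos, normSq_one_sub_cos]
  have hpos : 0 < X - c := by linarith
  have hE : X + 1 ≤ 2 * Real.exp (2 * |z.im| / 3) := by
    have e1 : X ≤ Real.exp (2 * |z.im| / 3) := by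
      have : X = Real.cosh (2 * |z.im| / 3) := by
        rw [hX, ← Real.cosh_abs (2 * z.im / 3)]
        congr 1
        rw [abs_div, abs_mul]; norm_num
      rw [this, Real.cosh_eq]
      have : Real.exp (-(2 * |z.im| / 3)) ≤ Real.exp (2 * |z.im| / 3) :=
        Real.exp_le_exp.2 (by have := abs_nonneg z.im; linarith)
      linarith
    have e2 : 1 ≤ Real.exp (2 * |z.im| / 3) := Real.one_le_exp (by positivity)
    linarith
  have hmain : 3 / 8 * Real.exp (-(2 * |z.im| / 3)) ≤ 1 - ‖sw z‖ ^ 2 := by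
    have e0 : 1 - ‖sw z‖ ^ 2 = (3 / 4 - 3 * c * X) / (X - c) ^ 2 := by
      rw [hsq]; field_simp; ring
    have e1 : 3 / 4 / (X + 1) ≤ (3 / 4 - 3 * c * X) / (X - c) ^ 2 := by
      rw [div_le_div_iff₀ (by linarith) (by positivity)]
      have a1 : (X - c) ^ 2 ≤ (X + 1) ^ 2 := pow_le_pow_left₀ hpos.le (by linarith) 2
      have a2 : 3 / 4 * (X + 1) ≤ 3 / 4 - 3 * c * X := by nlinarith
      nlinarith
    rw [e0]
    refine le_trans ?_ e1
    rw [Real.exp_neg, le_div_iff₀ (by linarith)]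
    have hE0 := Real.exp_pos (2 * |z.im| / 3)
    rw [mul_assoc, mul_comm (Real.exp (2 * |z.im| / 3))⁻¹ (X + 1), ← div_eq_mul_inv]
    have : (X + 1) / Real.exp (2 * |z.im| / 3) ≤ 2 := by
      rw [div_le_iff₀ hE0]; exact hE
    linarith
  have hn0 : 0 ≤ ‖sw z‖ := norm_nonneg _
  have hn1 : ‖sw z‖ ≤ 1 := by
    have := Real.exp_pos (-(2 * |z.im| / 3))
    nlinarith
  nlinarith

theorem norm_sw_lt_oneB (hc : Cz z) : ‖sw z‖ < 1 := by
  have := norm_sw_leB hc
  have := Real.exp_pos (-(2 * |z.im| / 3))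
  linarith

theorem differentiableAt_swB (hc : Cz z) : DifferentiableAt ℂ sw z := by
  have hs := sin_neB hc
  have ha : DifferentiableAt ℂ aw z := by
    unfold aw
    refine DifferentiableAt.div ?_ ?_ hs
    · fun_prop
    · fun_prop
  unfold sw
  exact ha.mul ((differentiableAt_const _).sub ha)

theorem cz_shift {y₀ : ℝ} (hc : Cz z) : Cz (z + (y₀ : ℂ) * I) := by
  unfold Cz
  rw [re_shift]
  exact hc

/-- Differentiability of the contact series. -/
theorem differentiableAt_gsB {ν : ℕ → ℝ} (hν : ∀ m, 0 ≤ ν m)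
    (hsum : ∀ r : ℝ, 0 ≤ r → r < 1 → Summable fun m => ν m * r ^ m) (y₀ : ℝ) (hz : Cz z) :
    DifferentiableAt ℂ (gs ν y₀) z := by
  have hz1 := cz_shift (y₀ := y₀) hz
  obtain ⟨r, hr1, hr2⟩ := exists_between (norm_sw_lt_oneB hz1)
  have hr0 : 0 ≤ r := (norm_nonneg _).trans hr1.le
  have hq : DifferentiableOn ℂ (fun w : ℂ => ∑' m, (ν m : ℂ) * w ^ m) (Metric.ball 0 r) := by
    refine differentiableOn_tsum_of_summable_norm (hsum r hr0 hr2) (fun m => ?_) Metric.isOpen_ball ?_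
    · exact ((differentiable_id.pow m).const_mul _).differentiableOn
    · intro m w hw
      rw [norm_mul, norm_pow, Complex.norm_real, Real.norm_of_nonneg (hν m)]
      rw [mem_ball_zero_iff] at hw
      exact mul_le_mul_of_nonneg_left (pow_le_pow_left₀ (norm_nonneg _) hw.le m) (hν m)
  have hqa : DifferentiableAt ℂ (fun w : ℂ => ∑' m, (ν m : ℂ) * w ^ m) (sw (z + (y₀ : ℂ) * I)) :=
    hq.differentiableAt (Metric.isOpen_ball.mem_nhds (by rw [mem_ball_zero_iff]; exact hr1))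
  have hs : DifferentiableAt ℂ (fun z : ℂ => sw (z + (y₀ : ℂ) * I)) z :=
    DifferentiableAt.comp (f := fun z : ℂ => z + (y₀ : ℂ) * I) z (differentiableAt_swB hz1)
      (by fun_prop)
  have := DifferentiableAt.comp (f := fun z : ℂ => sw (z + (y₀ : ℂ) * I)) z hqa hs
  exact this.const_mul _

end Pool.Agent.H53.FM
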