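import Mathlib
import Pool.Agent.H53.FM.GStrip
import Pool.Agent.Q1.M6f.Holo
import Pool.Agent.H83.Lo.Montel

/-!
# The response function is known (design Z)

`GHypX` : the hypotheses `GHyp` together with analyticity and the bound in the extended strip.
`g_known` : one relation `G(φ) A + G(φ + π/2) B ≈ 0` on `Re φ = π/4` with `A`, `B` not both small gives
`G(z + π/2) ≈ -i G(z)` for `0 ≤ Re z ≤ π/2`.
-/

set_option autoImplicit false

open Complex Set Filter Topology

namespace Pool.Agent.H53.FM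

open Pool.Agent.H25.Q1.Close Pool.Agent.Q1.M6f

/-- Properties of the normalised response of a flat wall, with the extended strip. -/
structure GHypX (C c Y : ℝ) (G : ℂ → ℂ) : Prop extends GHyp C c Y G where
  diffX : DifferentiableOn ℂ G (UBY Y)
  boundX : ∀ z ∈ UBY Y, ‖G z‖ ≤ C * Real.exp z.im

/-- the compact set in question -/
def KB (Y : ℝ) : Set ℂ := {z | 0 ≤ z.re ∧ z.re ≤ Real.pi / 2 ∧ |z.im| ≤ Y}

theorem isCompact_KB (Y : ℝ) : IsCompact (KB Y) := by
  have h : KB Y = (Icc 0 (Real.pi / 2)) ×ℂ (Icc (-Y) Y) := by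
    ext z
    unfold KB
    rw [Complex.mem_reProdIm]
    simp only [Set.mem_ofPred_eq, mem_Icc]
    rw [abs_le]
    tauto
  rw [h]
  exact isCompact_Icc.reProdIm isCompact_Icc

/-- **The response function is known.** -/
theorem g_known (C c κ ε Y₁ : ℝ) (hc : 0 < c) (hκ : 0 < κ) (hε : 0 < ε) : ∃ δ > 0, ∃ Y : ℝ,
    ∀ (G : ℂ → ℂ) (A B : ℂ), GHypX C c Y G → ‖A‖ ≤ 1 → ‖B‖ ≤ 1 → (κ ≤ ‖A‖ ∨ κ ≤ ‖B‖) →
    (∀ t : ℝ, |t| ≤ 1 → ‖G (pt t) * A + G (pt t + (Real.pi / 2 : ℝ)) * B‖ ≤ δ) →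
    ∀ z ∈ KB Y₁, ‖G (z + (Real.pi / 2 : ℝ)) + I * G z‖ ≤ ε := by
  by_contra hcon
  push Not at hcon
  have hch : ∀ n : ℕ, ∃ (G : ℂ → ℂ) (A B : ℂ), GHypX C c ((n : ℝ) + 1) G ∧ ‖A‖ ≤ 1 ∧ ‖B‖ ≤ 1 ∧
      (κ ≤ ‖A‖ ∨ κ ≤ ‖B‖) ∧
      (∀ t : ℝ, |t| ≤ 1 → ‖G (pt t) * A + G (pt t + (Real.pi / 2 : ℝ)) * B‖ ≤ 1 / ((n : ℝ) + 1)) ∧
      ∃ z ∈ KB Y₁, ε < ‖G (z + (Real.pi / 2 : ℝ)) + I * G z‖ :=
    fun n => hcon _ (by positivity) _
  choose G A B hyp hA hB hAB hrelG zz hzz hbig using hch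
  set φ : Ultrafilter ℕ := hyperfilter ℕ with hφ
  have hφle : (φ : Filter ℕ) ≤ atTop := Nat.hyperfilter_le_atTop
  have hpi := Real.pi_pos
  -- eventually z belongs to the domain
  have hmem : ∀ z ∈ UB, ∀ᶠ n : ℕ in (φ : Filter ℕ), z ∈ UBY ((n : ℝ) + 1) := by
    intro z hz
    apply hφle
    obtain ⟨k, hk⟩ := exists_nat_gt |z.im|
    filter_upwards [eventually_ge_atTop k] with n hn
    refine ⟨hz, ?_⟩
    have : (k : ℝ) ≤ n := by exact_mod_cast hn
    linarith
  have hex : ∀ z : ℂ, ∃ a : ℂ, z ∈ UB → Tendsto (fun n => G n z) φ (𝓝 a) := by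
    intro z
    by_cases hz : z ∈ UB
    · obtain ⟨a, ha⟩ := exists_lim_of_bdd φ (F := fun n => G n z) (M := C * Real.exp z.im) (by
        filter_upwards [hmem z hz] with n hn
        exact (hyp n).boundX z hn)
      exact ⟨a, fun _ => ha⟩
    · exact ⟨0, fun h => absurd h hz⟩
  choose g hg using hex
  obtain ⟨a, ha⟩ := exists_lim_of_bdd φ (F := A) (M := 1) (Eventually.of_forall fun n => hA n)
  obtain ⟨b, hb⟩ := exists_lim_of_bdd φ (F := B) (M := 1) (Eventually.of_forall fun n => hB n)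
  -- local uniform convergence
  have hloc : ∀ k : ℕ, ∃ (F : ℕ → ℂ → ℂ), (∀ n, k ≤ n → F n = G n) ∧
      TendstoLocallyUniformlyOn F g φ (UBY k) ∧ DifferentiableOn ℂ g (UBY k) := by
    intro k
    set F : ℕ → ℂ → ℂ := fun n => if k ≤ n then G n else fun _ => 0 with hF
    have hsub : ∀ n : ℕ, k ≤ n → UBY (k : ℝ) ⊆ UBY ((n : ℝ) + 1) := by
      intro n hn w hw
      refine ⟨hw.1, hw.2.trans ?_⟩
      have : (k : ℝ) ≤ n := by exact_mod_cast hn
      linarith
    have hFd : ∀ n, DifferentiableOn ℂ (F n) (UBY k) := by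
      intro n
      by_cases hn : k ≤ n
      · simp only [hF, if_pos hn]; exact (hyp n).diffX.mono (hsub n hn)
      · simp only [hF, if_neg hn]; exact differentiableOn_const _
    have hFb : ∀ n, ∀ w ∈ UBY (k : ℝ), ‖F n w‖ ≤ |C| * Real.exp k := by
      intro n w hw
      by_cases hn : k ≤ n
      · simp only [hF, if_pos hn]
        refine ((hyp n).boundX w (hsub n hn hw)).trans ?_
        have e1 : Real.exp w.im ≤ Real.exp k := Real.exp_le_exp.2 ((le_abs_self _).trans hw.2.le)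
        calc C * Real.exp w.im ≤ |C| * Real.exp w.im :=
              mul_le_mul_of_nonneg_right (le_abs_self C) (Real.exp_pos _).le
          _ ≤ |C| * Real.exp k := mul_le_mul_of_nonneg_left e1 (abs_nonneg C)
      · simp only [hF, if_neg hn, norm_zero]; positivity
    obtain ⟨gk, h1, h2, _⟩ := Pool.Agent.H83.Lo.montel φ (isOpen_UBY k) hFd hFb
    have hFG : ∀ n, k ≤ n → F n = G n := fun n hn => by simp only [hF, if_pos hn]
    have heq : ∀ w ∈ UBY (k : ℝ), gk w = g w := by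
      intro w hw
      have t1 := h1.tendsto_at hw
      have t2 := hg w hw.1
      have t3 : Tendsto (fun n => F n w) φ (𝓝 (g w)) := by
        refine t2.congr' ?_
        have : ∀ᶠ n in (φ : Filter ℕ), k ≤ n := hφle (eventually_ge_atTop k)
        filter_upwards [this] with n hn
        rw [hFG n hn]
      exact tendsto_nhds_unique t1 t3
    refine ⟨F, hFG, ?_, ?_⟩
    · exact h1.congr_right heq
    · exact h2.congr fun w hw => (heq w hw).symm
  have hdiffX : DifferentiableOn ℂ g UB := by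
    intro z hz
    obtain ⟨k, hk⟩ := exists_nat_gt |z.im|
    obtain ⟨F, -, -, h2⟩ := hloc k
    exact (h2.differentiableAt ((isOpen_UBY k).mem_nhds ⟨hz, hk⟩)).differentiableWithinAt
  have hdiff : DifferentiableOn ℂ g U := hdiffX.mono U_subset_UB
  have hmid : ((Real.pi / 2 : ℝ) : ℂ) ∈ U := by
    constructor
    · rw [ofReal_re]; linarith
    · rw [ofReal_re]; linarith
  have hbound : ∀ z ∈ U, ‖g z‖ ≤ C * Real.exp z.im := by
    intro z hz
    refine le_of_tendsto (hg z (U_subset_UB hz)).norm ?_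
    filter_upwards [hmem z (U_subset_UB hz)] with n hn
    exact (hyp n).boundX z hn
  have hsymU : ∀ z ∈ U, (Real.pi : ℂ) - (starRingEnd ℂ) z ∈ U := by
    rintro z ⟨h1, h2⟩
    constructor
    · rw [sub_re, conj_re, ofReal_re]; linarith
    · rw [sub_re, conj_re, ofReal_re]; linarith
  have hsym : ∀ z ∈ U, g ((Real.pi : ℂ) - (starRingEnd ℂ) z) = (starRingEnd ℂ) (g z) := by
    intro z hz
    have t1 := hg _ (U_subset_UB (hsymU z hz))
    have t2 : Tendsto (fun n => (starRingEnd ℂ) (G n z)) φ (𝓝 ((starRingEnd ℂ) (g z))) :=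
      (Complex.continuous_conj.tendsto _).comp (hg z (U_subset_UB hz))
    refine tendsto_nhds_unique t1 (t2.congr' ?_)
    filter_upwards [hmem z (U_subset_UB hz)] with n hn
    exact ((hyp n).sym z ⟨hz, hn.2⟩).symm
  have hne : g (Real.pi / 2 : ℝ) ≠ 0 := by
    have : c ≤ ‖g (Real.pi / 2 : ℝ)‖ :=
      ge_of_tendsto (hg _ (U_subset_UB hmid)).norm (Eventually.of_forall fun n => (hyp n).lower)
    intro h0
    rw [h0, norm_zero] at this
    linarith
  have hrel : ∀ t : ℝ, |t| ≤ 1 → g (pt t) * a + g (pt t + (Real.pi / 2 : ℝ)) * b = 0 := by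
    intro t ht
    have t1 := ((hg _ (U_subset_UB (V_subset_U (pt_mem_V t)))).mul ha).add
      ((hg _ (U_subset_UB (shift_mem (pt_mem_V t)))).mul hb)
    have t2 : Tendsto (fun n : ℕ => 1 / ((n : ℝ) + 1)) φ (𝓝 0) :=
      tendsto_one_div_add_atTop_nhds_zero_nat.mono_left hφle
    have t3 := squeeze_zero_norm (fun n => hrelG n t ht) t2
    exact tendsto_nhds_unique t1 t3
  have hfin := closing hdiff hbound hsym hne hrel
  -- b is not zero
  have hb0 : b ≠ 0 := by
    intro h0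
    have ha0 : a = 0 := by rw [hfin, h0, mul_zero]
    have hor : ∀ᶠ n in (φ : Filter ℕ), ‖A n‖ < κ ∧ ‖B n‖ < κ := by
      have e1 : Tendsto (fun n => ‖A n‖) φ (𝓝 0) := by
        have := ha.norm; rwa [ha0, norm_zero] at this
      have e2 : Tendsto (fun n => ‖B n‖) φ (𝓝 0) := by
        have := hb.norm; rwa [h0, norm_zero] at this
      exact (e1.eventually (gt_mem_nhds hκ)).and (e2.eventually (gt_mem_nhds hκ))
    obtain ⟨n, h1, h2⟩ := hor.exists
    rcases hAB n with h | h <;> linarith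
  -- the relation on VB
  have hshift : DifferentiableOn ℂ (fun z => g (z + (Real.pi / 2 : ℝ))) VB := by
    refine DifferentiableOn.comp (f := fun z : ℂ => z + ((Real.pi / 2 : ℝ) : ℂ)) hdiffX
      (by fun_prop) ?_
    intro z hz
    exact shiftB_mem hz
  have hrelV : ∀ z ∈ VB, g z * a + g (z + (Real.pi / 2 : ℝ)) * b = 0 := by
    have hd : DifferentiableOn ℂ (fun z => g z * a + g (z + (Real.pi / 2 : ℝ)) * b) VB :=
      ((hdiffX.mono VB_subset_UB).mul_const a).add (hshift.mul_const b)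
    have ha := hd.analyticOnNhd isOpen_VB
    exact ha.eqOn_zero_of_preconnected_of_frequently_eq_zero convex_VB.isPreconnected
      (V_subset_VB (pt_mem_V 0)) (pt_frequently hrel)
  have hz0 : ∀ z ∈ VB, g (z + (Real.pi / 2 : ℝ)) + I * g z = 0 := by
    intro z hz
    have h := hrelV z hz
    rw [hfin] at h
    have h2 : (g (z + (Real.pi / 2 : ℝ)) + I * g z) * b = 0 := by linear_combination h
    rcases mul_eq_zero.1 h2 with h3 | h3
    · exact h3
    · exact absurd h3 hb0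
  -- uniform convergence on the compact set
  obtain ⟨k, hk⟩ := exists_nat_gt |Y₁|
  obtain ⟨F, hFG, hF, -⟩ := hloc k
  have hKs : KB Y₁ ⊆ UBY k := by
    intro z hz
    refine ⟨⟨by linarith [hz.1], by linarith [hz.2.1]⟩, ?_⟩
    exact lt_of_le_of_lt (hz.2.2.trans (le_abs_self _)) hk
  have hKs' : ∀ z ∈ KB Y₁, z + (Real.pi / 2 : ℝ) ∈ UBY k := by
    intro z hz
    refine ⟨⟨?_, ?_⟩, ?_⟩
    · simp only [add_re, ofReal_re]; linarith [hz.1]
    · simp only [add_re, ofReal_re]; linarith [hz.2.1]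
    · simp only [add_im, ofReal_im, add_zero]
      exact lt_of_le_of_lt (hz.2.2.trans (le_abs_self _)) hk
  have hK2 : IsCompact ((fun z : ℂ => z + ((Real.pi / 2 : ℝ) : ℂ)) '' KB Y₁) :=
    (isCompact_KB Y₁).image (by fun_prop)
  have hu1 : TendstoUniformlyOn F g φ (KB Y₁) :=
    (tendstoLocallyUniformlyOn_iff_forall_isCompact (isOpen_UBY k)).1 hF _ hKs (isCompact_KB Y₁)
  have hu2 : TendstoUniformlyOn F g φ ((fun z : ℂ => z + ((Real.pi / 2 : ℝ) : ℂ)) '' KB Y₁) := by
    refine (tendstoLocallyUniformlyOn_iff_forall_isCompact (isOpen_UBY k)).1 hF _ ?_ hK2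
    rintro _ ⟨z, hz, rfl⟩
    exact hKs' z hz
  rw [Metric.tendstoUniformlyOn_iff] at hu1 hu2
  have hfinal : ∀ᶠ n in (φ : Filter ℕ), False := by
    filter_upwards [hu1 (ε / 2) (by positivity), hu2 (ε / 2) (by positivity),
      hφle (eventually_ge_atTop k)] with n h1 h2 h3
    have h4 := h1 (zz n) (hzz n)
    have h5 := h2 (zz n + ((Real.pi / 2 : ℝ) : ℂ)) ⟨zz n, hzz n, rfl⟩
    rw [hFG n h3, dist_eq_norm] at h4 h5
    have hzV : zz n ∈ VB := by
      refine ⟨by linarith [(hzz n).1], by linarith [(hzz n).2.1]⟩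
    have h6 := hz0 (zz n) hzV
    have h7 : G n (zz n + (Real.pi / 2 : ℝ)) + I * G n (zz n) =
        -(g (zz n + (Real.pi / 2 : ℝ)) - G n (zz n + (Real.pi / 2 : ℝ))) -
          I * (g (zz n) - G n (zz n)) := by linear_combination h6
    have h8 := hbig n
    rw [h7] at h8
    have h9 := norm_sub_le (-(g (zz n + (Real.pi / 2 : ℝ)) - G n (zz n + (Real.pi / 2 : ℝ))))
      (I * (g (zz n) - G n (zz n)))
    rw [norm_neg, norm_mul, Complex.norm_I, one_mul] at h9
    linarith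
  exact hfinal.exists.elim fun _ h => h

end Pool.Agent.H53.FM
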