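import Mathlib
import Pool.Agent.H53.FM.GKnown
import Pool.Agent.H20.Q1.DNum

/-! # The response of a flat wall satisfies `GHypX` -/

set_option autoImplicit false

open Finset

namespace Pool.Agent.H53.FM

open Pool.Agent.H20.Q1 Pool.Agent.H25.Q1.Close Pool.Agent.Q1.M6f

/-- **the hypotheses of `g_known` hold for the response** -/
theorem ghypX_DR : ∃ C c K : ℝ, 0 < C ∧ 0 < c ∧ 0 < K ∧ ∀ κ : ℤ, (κ = 0 ∨ κ = 1) →
    ∀ (Y y₀ : ℝ) (m r : ℤ), 0 ≤ Y → Y ≤ y₀ → K * Real.exp (y₀ + Y) ≤ m → m < r →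
      GHypX C c Y (GD κ m r y₀) := by
  obtain ⟨C', c', K', hC', hc', hK', h'⟩ := ghyp_DR
  obtain ⟨K, c, C, hK, hc, hC, h⟩ := DR_bd
  have h32 : (0 : ℝ) < (16 / 3) ^ ((3 : ℝ) / 2) := Real.rpow_pos_of_pos (by norm_num) _
  refine ⟨max C' ((C + 1) * (16 / 3) ^ ((3 : ℝ) / 2)), c',
    max K' (K * (16 / 3) ^ ((3 : ℝ) / 2)), lt_max_of_lt_left hC', hc', lt_max_of_lt_left hK', ?_⟩
  intro κ hκ Y y₀ m r hY hYy hm hmr
  have hE0' := Real.exp_pos (y₀ + Y)
  have hm1 : K' * Real.exp (y₀ + Y) ≤ m :=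
    (mul_le_mul_of_nonneg_right (le_max_left _ _) hE0'.le).trans hm
  have hm2 : K * (16 / 3) ^ ((3 : ℝ) / 2) * Real.exp (y₀ + Y) ≤ m :=
    (mul_le_mul_of_nonneg_right (le_max_right _ _) hE0'.le).trans hm
  obtain ⟨b1, b2, b3, b4⟩ := h' κ hκ Y y₀ m r hY hYy hm1 hmr
  have h9 : (3 / 16 : ℝ) ^ (3 / 2 : ℝ) * (16 / 3) ^ (3 / 2 : ℝ) = 1 := by
    rw [← Real.mul_rpow (by norm_num) (by norm_num)]; norm_num
  have h9p : (0 : ℝ) < (3 / 16) ^ (3 / 2 : ℝ) := Real.rpow_pos_of_pos (by norm_num) _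
  refine ⟨⟨b1, fun z hz => (b2 z hz).trans ?_, b3, b4⟩, ?_, ?_⟩
  · exact mul_le_mul_of_nonneg_right (le_max_left _ _) (Real.exp_pos _).le
  · intro z hz
    rw [GD_eq]
    exact (differentiableAt_gsB (fun _ => nuD_nonneg) (fun ρ _ _ => nuD_summable ρ) y₀
      (cz_UB hz.1)).differentiableWithinAt
  · intro z hz
    have hcz : Cz (z + (y₀ : ℂ) * Complex.I) := cz_shift (cz_UB hz.1)
    set s := sw (z + (y₀ : ℂ) * Complex.I) with hs
    have hs1 : ‖s‖ < 1 := norm_sw_lt_oneB hcz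
    have him := abs_lt.1 hz.2
    have hle := norm_sw_leB hcz
    rw [im_shift, abs_of_nonneg (by linarith)] at hle
    set σ := max (1 / 4) ‖s‖ with hσ
    have hσ1 : 1 / 4 ≤ σ := le_max_left _ _
    have hσ2 : σ < 1 := max_lt (by norm_num) hs1
    have hE1 : Real.exp (-(2 * (z.im + y₀) / 3)) ≤ 1 := Real.exp_le_one_iff.2 (by linarith)
    have hσ3 : 3 / 16 * Real.exp (-(2 * (z.im + y₀) / 3)) ≤ 1 - σ := by
      rw [hσ]
      rcases max_cases (1 / 4) ‖s‖ with h1 | h1 <;> rw [h1.1] <;> linarith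
    have hKm : K ≤ (1 - σ) ^ ((3 : ℝ) / 2) * m := by
      have h1 : 3 / 16 * Real.exp (-(2 * (y₀ + Y) / 3)) ≤ 1 - σ := by
        have h2 : Real.exp (-(2 * (y₀ + Y) / 3)) ≤ Real.exp (-(2 * (z.im + y₀) / 3)) :=
          Real.exp_le_exp.2 (by linarith)
        linarith
      have h2 : (3 / 16 * Real.exp (-(2 * (y₀ + Y) / 3))) ^ (3 / 2 : ℝ) ≤ (1 - σ) ^ (3 / 2 : ℝ) :=
        Real.rpow_le_rpow (by positivity) h1 (by norm_num)
      have h3 : (3 / 16 * Real.exp (-(2 * (y₀ + Y) / 3))) ^ (3 / 2 : ℝ) =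
          (3 / 16) ^ (3 / 2 : ℝ) * Real.exp (-(y₀ + Y)) := by
        rw [Real.mul_rpow (by norm_num) (Real.exp_pos _).le, ← Real.exp_mul]
        congr 2
        ring
      rw [h3] at h2
      have hE : Real.exp (-(y₀ + Y)) * Real.exp (y₀ + Y) = 1 := by
        rw [← Real.exp_add]; simp
      calc K = (3 / 16) ^ (3 / 2 : ℝ) * Real.exp (-(y₀ + Y)) *
            (K * (16 / 3) ^ ((3 : ℝ) / 2) * Real.exp (y₀ + Y)) := by
            calc K = K * ((3 / 16 : ℝ) ^ (3 / 2 : ℝ) * (16 / 3) ^ (3 / 2 : ℝ)) *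
                  (Real.exp (-(y₀ + Y)) * Real.exp (y₀ + Y)) := by rw [h9, hE]; ring
              _ = _ := by ring
        _ ≤ (3 / 16) ^ (3 / 2 : ℝ) * Real.exp (-(y₀ + Y)) * m :=
            mul_le_mul_of_nonneg_left hm2 (by positivity)
        _ ≤ (1 - σ) ^ ((3 : ℝ) / 2) * m := by
            refine mul_le_mul_of_nonneg_right h2 ?_
            have : 0 ≤ K * (16 / 3) ^ ((3 : ℝ) / 2) * Real.exp (y₀ + Y) := by positivity
            linarith
    obtain ⟨hq, -, hup⟩ := h κ hκ σ hσ1 hσ2 m r hKm hmr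
    have hD : ‖DR κ m r s‖ ≤ dN κ m r σ / dN κ m r (1 / 4) :=
      (norm_DR_le s).trans (div_le_div_of_nonneg_right (dN_mono (norm_nonneg _)
        (le_max_right _ _)) hq.le)
    set T := dN κ m r σ / dN κ m r (1 / 4) with hT
    have hT0 : 0 ≤ T := div_nonneg (dN_nonneg (by linarith)) hq.le
    set E := Real.exp (-(2 * (z.im + y₀) / 3)) with hE
    have hE0 : 0 < E := Real.exp_pos _
    have hpow : (3 / 16 * E) ^ (3 / 2 : ℝ) ≤ (1 - σ) ^ (3 / 2 : ℝ) :=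
      Real.rpow_le_rpow (by positivity) hσ3 (by norm_num)
    have hEpow : E ^ (3 / 2 : ℝ) = Real.exp (-(z.im + y₀)) := by
      rw [hE, ← Real.exp_mul]; congr 1; ring
    have hT2 : T * (3 / 16 * E) ^ (3 / 2 : ℝ) ≤ C :=
      (mul_le_mul_of_nonneg_left hpow hT0).trans hup
    rw [Real.mul_rpow (by norm_num) hE0.le, hEpow] at hT2
    have hT3 : T ≤ C * (16 / 3) ^ (3 / 2 : ℝ) * Real.exp (z.im + y₀) := by
      have e1 := mul_le_mul_of_nonneg_right hT2 (mul_nonneg h32.le (Real.exp_pos (z.im + y₀)).le)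
      have e2 : T * ((3 / 16) ^ (3 / 2 : ℝ) * Real.exp (-(z.im + y₀))) *
          ((16 / 3) ^ (3 / 2 : ℝ) * Real.exp (z.im + y₀)) = T := by
        have e3 : Real.exp (-(z.im + y₀)) * Real.exp (z.im + y₀) = 1 := by
          rw [← Real.exp_add]; simp
        calc _ = T * ((3 / 16 : ℝ) ^ (3 / 2 : ℝ) * (16 / 3) ^ (3 / 2 : ℝ)) *
              (Real.exp (-(z.im + y₀)) * Real.exp (z.im + y₀)) := by ring
          _ = T := by rw [h9, e3]; ring
      rw [e2] at e1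
      linarith
    unfold GD
    rw [← hs, norm_mul, Complex.norm_real, Real.norm_of_nonneg (Real.exp_pos _).le]
    calc Real.exp (-y₀) * ‖DR κ m r s‖ ≤ Real.exp (-y₀) * T :=
          mul_le_mul_of_nonneg_left hD (Real.exp_pos _).le
      _ ≤ Real.exp (-y₀) * (C * (16 / 3) ^ (3 / 2 : ℝ) * Real.exp (z.im + y₀)) :=
          mul_le_mul_of_nonneg_left hT3 (Real.exp_pos _).le
      _ = C * (16 / 3) ^ (3 / 2 : ℝ) * Real.exp z.im := by
          have e3 : Real.exp (-y₀) * Real.exp (z.im + y₀) = Real.exp z.im := by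
            rw [← Real.exp_add]; congr 1; ring
          calc _ = C * (16 / 3) ^ (3 / 2 : ℝ) * (Real.exp (-y₀) * Real.exp (z.im + y₀)) := by ring
            _ = _ := by rw [e3]
      _ ≤ max C' ((C + 1) * (16 / 3) ^ ((3 : ℝ) / 2)) * Real.exp z.im := by
          have := Real.exp_pos z.im
          have h1 : C * (16 / 3) ^ ((3 : ℝ) / 2) ≤ (C + 1) * (16 / 3) ^ ((3 : ℝ) / 2) := by
            nlinarith
          exact mul_le_mul_of_nonneg_right (h1.trans (le_max_right _ _)) this.le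

end Pool.Agent.H53.FM
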