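import Mathlib
import Pool.Agent.Q1.M6f.GlueHol

set_option autoImplicit false
open MeasureTheory Set Filter Topology intervalIntegral

/-! # Non-degeneracy of the responses (box averages)

`NonTI g Ω` : the increments UP minus RIGHT of `g` over two congruent rectangles of `Ω` differ.
`nd_boxes` : if every limit of `f` has this property then the averages of the responses over two suitable
boxes are not both close, uniformly in the scale. -/

namespace Pool.Agent.H53.FM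

open Pool.Agent.Q1.M4 Pool.Agent.H25.Q1.Close Pool.Agent.Q1.M6f Pool.Agent.Q1.M6f.Glue

variable {Ω : Set ℂ} {g : ℂ → ℂ} {R : ℕ → ℝ} {f : ℕ → ℤ × ℤ → ℂ}

/-- increments of `g` over a rectangle, UP minus RIGHT -/
noncomputable def UR (g : ℂ → ℂ) (a b c d : ℝ) : ℂ :=
  ((∫ x in a..b, g (x + d * Complex.I)) - ∫ x in a..b, g (x + c * Complex.I)) -
    ((∫ y in c..d, g (b + y * Complex.I)) - ∫ y in c..d, g (a + y * Complex.I))

/-- The increments UP minus RIGHT over two congruent rectangles differ. -/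
def NonTI (g : ℂ → ℂ) (Ω : Set ℂ) : Prop :=
  ∃ a b c d x y : ℝ, a < b ∧ c < d ∧ Icc a b ×ℂ Icc c d ⊆ Ω ∧
    Icc (a + x) (b + x) ×ℂ Icc (c + y) (d + y) ⊆ Ω ∧ UR g a b c d ≠ UR g (a + x) (b + x) (c + y) (d + y)

/-- The points of a box with corner near `R (a + c i)` and sides at most `R (b - a)`, `R (d - c)`. -/
theorem inBox_ev {F : Filter ℕ} (hR : Tendsto R F atTop) {Q : Set ℂ} {s : ℝ} (hs : 0 < s) {a b c d : ℝ}
    (hab : a < b) (hcd : c < d) (hQ : Icc a b ×ℂ Icc c d ⊆ Q) :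
    ∀ᶠ j in F, InBox {v | lat v / (R j : ℂ) ∈ Metric.cthickening s Q}
      (Pool.Agent.Q1.M4.fl R (a + c * Complex.I) j) ⌊(b - a) * R j⌋₊ ⌊(d - c) * R j⌋₊ := by
  have hba : 0 < b - a := by linarith
  have hdc : 0 < d - c := by linarith
  filter_upwards [hR.eventually_gt_atTop 0, hR.eventually_gt_atTop (2 / s)] with j h0 h1
  intro k hk l hl
  have hs2 : 2 / R j < s := by
    rw [div_lt_iff₀ h0]; rw [div_lt_iff₀ hs] at h1; linarith
  have hkR : (k : ℝ) / R j ≤ b - a := by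
    rw [div_le_iff₀ h0]
    calc (k : ℝ) ≤ ⌊(b - a) * R j⌋₊ := by exact_mod_cast hk
      _ ≤ (b - a) * R j := Nat.floor_le (by positivity)
  have hlR : (l : ℝ) / R j ≤ d - c := by
    rw [div_le_iff₀ h0]
    calc (l : ℝ) ≤ ⌊(d - c) * R j⌋₊ := by exact_mod_cast hl
      _ ≤ (d - c) * R j := Nat.floor_le (by positivity)
  have hk0 : 0 ≤ (k : ℝ) / R j := by positivity
  have hl0 : 0 ≤ (l : ℝ) / R j := by positivity
  have hRc : ((R j : ℝ) : ℂ) ≠ 0 := by exact_mod_cast h0.ne'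
  have hmem : ((a + (k : ℝ) / R j : ℝ) : ℂ) + ((c + (l : ℝ) / R j : ℝ) : ℂ) * Complex.I ∈ Q :=
    hQ (mem_rect ⟨by linarith, by linarith⟩ ⟨by linarith, by linarith⟩)
  change lat (Pool.Agent.Q1.M4.fl R (a + c * Complex.I) j + k • rr + l • uu) / (R j : ℂ) ∈
    Metric.cthickening s Q
  refine Metric.mem_cthickening_of_dist_le _ _ s _ hmem ?_
  rw [dist_eq_norm, lat_add_smul, lat_add_smul, lat_rr, lat_uu]
  have hA1 := Int.floor_le (R j * a)
  have hA2 := Int.lt_floor_add_one (R j * a)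
  have hC1 := Int.floor_le (R j * c)
  have hC2 := Int.lt_floor_add_one (R j * c)
  have hPj : Pool.Agent.Q1.M4.fl R (a + c * Complex.I) j = (⌊R j * a⌋, ⌊R j * c⌋) := by
    simp [Pool.Agent.Q1.M4.fl]
  have e5 : (lat (Pool.Agent.Q1.M4.fl R (a + c * Complex.I) j) + k * 1 + l * Complex.I) / (R j : ℂ) -
      (((a + (k : ℝ) / R j : ℝ) : ℂ) + ((c + (l : ℝ) / R j : ℝ) : ℂ) * Complex.I) =
      ((((⌊R j * a⌋ : ℝ) - R j * a) / R j : ℝ) : ℂ) +
      ((((⌊R j * c⌋ : ℝ) - R j * c) / R j : ℝ) : ℂ) * Complex.I := by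
    rw [hPj]
    have : lat (⌊R j * a⌋, ⌊R j * c⌋) = ((⌊R j * a⌋ : ℝ) : ℂ) + ((⌊R j * c⌋ : ℝ) : ℂ) * Complex.I := by
      apply Complex.ext <;> simp [lat]
    rw [this]
    push_cast
    field_simp
    ring
  rw [e5]
  have b1 : |((⌊R j * a⌋ : ℝ) - R j * a) / R j| ≤ 1 / R j := by
    rw [abs_div, abs_of_pos h0]
    exact div_le_div_of_nonneg_right (by rw [abs_le]; constructor <;> linarith) h0.le
  have b2 : |((⌊R j * c⌋ : ℝ) - R j * c) / R j| ≤ 1 / R j := by
    rw [abs_div, abs_of_pos h0]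
    exact div_le_div_of_nonneg_right (by rw [abs_le]; constructor <;> linarith) h0.le
  refine (norm_add_le _ _).trans ?_
  rw [norm_mul, Complex.norm_I, mul_one, Complex.norm_real, Complex.norm_real, Real.norm_eq_abs,
    Real.norm_eq_abs]
  have : 1 / R j + 1 / R j = 2 / R j := by ring
  linarith

/-- normalised difference of the averages over two boxes -/
noncomputable def nA (R : ℝ) (α : ℤ × ℤ → ℂ) (a b : ℤ × ℤ) (L M : ℕ) : ℂ :=
  ((R / (L * M) : ℝ) : ℂ) * (SA α a L M - SA α b L M)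

/-- the responses are close to the increments of `f` -/
theorem nA_sub {f e ff fl : ℤ × ℤ → ℂ} {S : Set (ℤ × ℤ)} {τ R : ℝ} {a b : ℤ × ℤ} {L M : ℕ} (hR : 0 < R)
    (hL : 0 < L) (hM : 0 < M) (cf : Cls S τ f ff) (cl : Cls S τ f fl) (ia : InBox S a L M)
    (ib : InBox S b L M) :
    ‖(nA R (al e ff) a b L M - nA R (be e fl) a b L M) -
      ((XX R f a L M - XX R f b L M) - (YY R f a L M - YY R f b L M))‖ ≤
      2 * (τ * (R / M)) + 2 * (τ * (R / L)) := by
  have hL' : (0 : ℝ) < L := by exact_mod_cast hL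
  have hM' : (0 : ℝ) < M := by exact_mod_cast hM
  set κ : ℝ := R / (L * M) with hκ
  have hκ0 : 0 < κ := by rw [hκ]; positivity
  have kL : κ * L = R / M := by rw [hκ]; field_simp
  have kM : κ * M = R / L := by rw [hκ]; field_simp
  have nκ : ∀ z : ℂ, ‖(κ : ℂ) * z‖ = κ * ‖z‖ := fun z => by
    rw [norm_mul, Complex.norm_real, Real.norm_of_nonneg hκ0.le]
  have a1 := al_err (e := e) cf ia
  have a2 := al_err (e := e) cf ib
  have a3 := be_err (e := e) cl ia
  have a4 := be_err (e := e) cl ib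
  have e1 : (nA R (al e ff) a b L M - nA R (be e fl) a b L M) -
      ((XX R f a L M - XX R f b L M) - (YY R f a L M - YY R f b L M)) =
      (κ : ℂ) * ((SA (al e ff) a L M - (TX f a L M - SA e a L M)) -
        (SA (al e ff) b L M - (TX f b L M - SA e b L M)) -
        ((SA (be e fl) a L M - (TY f a L M - SA e a L M)) -
        (SA (be e fl) b L M - (TY f b L M - SA e b L M)))) := by
    unfold nA XX YY; rw [← hκ]; ring
  rw [e1, nκ]
  have n1 := norm_sub_le (SA (al e ff) a L M - (TX f a L M - SA e a L M))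
      (SA (al e ff) b L M - (TX f b L M - SA e b L M))
  have n2 := norm_sub_le (SA (be e fl) a L M - (TY f a L M - SA e a L M))
      (SA (be e fl) b L M - (TY f b L M - SA e b L M))
  have n3 := norm_sub_le ((SA (al e ff) a L M - (TX f a L M - SA e a L M)) -
      (SA (al e ff) b L M - (TX f b L M - SA e b L M)))
      ((SA (be e fl) a L M - (TY f a L M - SA e a L M)) -
      (SA (be e fl) b L M - (TY f b L M - SA e b L M)))
  calc κ * _ ≤ κ * (L * τ + L * τ + (M * τ + M * τ)) :=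
        mul_le_mul_of_nonneg_left (by linarith) hκ0.le
    _ = 2 * (τ * (κ * L)) + 2 * (τ * (κ * M)) := by ring
    _ = _ := by rw [kL, kM]

/-- **Non-degeneracy of the responses.** -/
theorem nd_boxes {R : ℕ → ℝ} {Ω : Set ℂ} {f e ff fl : ℕ → ℤ × ℤ → ℂ} (hR : Tendsto R atTop atTop)
    (hΩ : IsOpen Ω)
    (hf : ∀ U : Ultrafilter ℕ, (U : Filter ℕ) ≤ atTop →
      ∃ g : ℂ → ℂ, ILim R U f Ω g ∧ ContinuousOn g Ω ∧ NonTI g Ω)
    (cff : ∀ K ⊆ Ω, IsCompact K → ∀ τ > 0, ∀ᶠ j in atTop, Cls {v | lat v / (R j : ℂ) ∈ K} τ (f j) (ff j))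
    (cfl : ∀ K ⊆ Ω, IsCompact K → ∀ τ > 0, ∀ᶠ j in atTop, Cls {v | lat v / (R j : ℂ) ∈ K} τ (f j) (fl j)) :
    ∃ κ > 0, ∃ K ⊆ Ω, IsCompact K ∧ ∀ᶠ j in atTop, ∃ (a b : ℤ × ℤ) (L M : ℕ), 0 < L ∧ 0 < M ∧
      InBox {v | lat v / (R j : ℂ) ∈ K} a L M ∧ InBox {v | lat v / (R j : ℂ) ∈ K} b L M ∧
      (κ ≤ ‖nA (R j) (al (e j) (ff j)) a b L M‖ ∨ κ ≤ ‖nA (R j) (be (e j) (fl j)) a b L M‖) := by
  by_contra hcon
  set P : ℝ → Set ℂ → ℕ → Prop := fun κ K j => ∀ (a b : ℤ × ℤ) (L M : ℕ), 0 < L → 0 < M →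
      InBox {v | lat v / (R j : ℂ) ∈ K} a L M → InBox {v | lat v / (R j : ℂ) ∈ K} b L M →
      ‖nA (R j) (al (e j) (ff j)) a b L M‖ < κ ∧ ‖nA (R j) (be (e j) (fl j)) a b L M‖ < κ with hP
  have hfr : ∀ κ > 0, ∀ K ⊆ Ω, IsCompact K → ∃ᶠ j in atTop, P κ K j := by
    intro κ hκ K hK hKc
    by_contra h
    rw [not_frequently] at h
    refine hcon ⟨κ, hκ, K, hK, hKc, h.mono fun j hj => ?_⟩
    simp only [hP] at hj
    push Not at hj
    obtain ⟨a, b, L, M, h1, h2, h3, h4, h5⟩ := hj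
    refine ⟨a, b, L, M, h1, h2, h3, h4, ?_⟩
    by_cases h6 : ‖nA (R j) (al (e j) (ff j)) a b L M‖ < κ
    · exact Or.inr (h5 h6)
    · exact Or.inl (not_lt.1 h6)
  have hmono : ∀ {κ κ' : ℝ} {K K' : Set ℂ} {j : ℕ}, κ' ≤ κ → K ⊆ K' → P κ' K' j → P κ K j := by
    intro κ κ' K K' j hκ hK h a b L M h1 h2 h3 h4
    obtain ⟨h5, h6⟩ := h a b L M h1 h2 (fun k hk l hl => hK (h3 k hk l hl))
      (fun k hk l hl => hK (h4 k hk l hl))
    exact ⟨h5.trans_le hκ, h6.trans_le hκ⟩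
  -- the filter
  let F : Filter ℕ :=
    { sets := {s | ∃ κ > 0, ∃ K ⊆ Ω, IsCompact K ∧ ∀ᶠ j in atTop, P κ K j → j ∈ s}
      univ_sets := ⟨1, one_pos, ∅, empty_subset _, isCompact_empty, Eventually.of_forall fun _ _ => mem_univ _⟩
      sets_of_superset := by
        rintro s t ⟨κ, hκ, K, hK, hKc, h⟩ hst
        exact ⟨κ, hκ, K, hK, hKc, h.mono fun j hj hp => hst (hj hp)⟩
      inter_sets := by
        rintro s t ⟨κ, hκ, K, hK, hKc, h⟩ ⟨κ', hκ', K', hK', hKc', h'⟩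
        refine ⟨min κ κ', lt_min hκ hκ', K ∪ K', union_subset hK hK', hKc.union hKc', ?_⟩
        filter_upwards [h, h'] with j h1 h2 hp
        exact ⟨h1 (hmono (min_le_left _ _) subset_union_left hp),
          h2 (hmono (min_le_right _ _) subset_union_right hp)⟩ }
  have hF : F.NeBot := by
    refine ⟨fun h => ?_⟩
    have : (∅ : Set ℕ) ∈ F := by rw [h]; trivial
    obtain ⟨κ, hκ, K, hK, hKc, h1⟩ := this
    exact hfr κ hκ K hK hKc (h1.mono fun j hj hp => hj hp)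
  have hFt : F ≤ atTop := by
    intro s hs
    refine ⟨1, one_pos, ∅, empty_subset _, isCompact_empty, ?_⟩
    filter_upwards [hs] with j hj _
    exact hj
  set U : Ultrafilter ℕ := Ultrafilter.of F with hUd
  have hUF : (U : Filter ℕ) ≤ F := Ultrafilter.of_le F
  have hU : (U : Filter ℕ) ≤ atTop := hUF.trans hFt
  have hPU : ∀ κ > 0, ∀ K ⊆ Ω, IsCompact K → ∀ᶠ j in (U : Filter ℕ), P κ K j := by
    intro κ hκ K hK hKc
    apply hUF
    exact ⟨κ, hκ, K, hK, hKc, Eventually.of_forall fun j hj => hj⟩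
  obtain ⟨g, hlim, hg, a, b, c, d, x, y, hab, hcd, hR1, hR2, hne⟩ := hf U hU
  have hRU : Tendsto R U atTop := hR.mono_left hU
  set a' := a + x with ha'
  set b' := b + x with hb'
  set c' := c + y with hc'
  set d' := d + y with hd'
  have hab' : a' < b' := by rw [ha', hb']; linarith
  have hcd' : c' < d' := by rw [hc', hd']; linarith
  have hba : 0 < b - a := by linarith
  have hdc : 0 < d - c := by linarith
  have eba : b' - a' = b - a := by rw [ha', hb']; ring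
  have edc : d' - c' = d - c := by rw [hc', hd']; ring
  set p : ℕ → ℤ × ℤ := fun j => Pool.Agent.Q1.M4.fl R (a + c * Complex.I) j with hp
  set q : ℕ → ℤ × ℤ := fun j => Pool.Agent.Q1.M4.fl R (a' + c' * Complex.I) j with hq
  set L : ℕ → ℕ := fun j => ⌊(b - a) * R j⌋₊ with hL
  set M : ℕ → ℕ := fun j => ⌊(d - c) * R j⌋₊ with hM
  have tp : Tendsto (fun j => lat (p j) / (R j : ℂ)) U (𝓝 (a + c * Complex.I)) :=
    (fl_tendsto hR _).mono_left hU
  have tq : Tendsto (fun j => lat (q j) / (R j : ℂ)) U (𝓝 (a' + c' * Complex.I)) :=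
    (fl_tendsto hR _).mono_left hU
  have tL : Tendsto (fun j => (L j : ℝ) / R j) U (𝓝 (b - a)) := nat_floor_tendsto hRU hba.le
  have tM : Tendsto (fun j => (M j : ℝ) / R j) U (𝓝 (d - c)) := nat_floor_tendsto hRU hdc.le
  obtain ⟨X1, Y1⟩ := XX_tendsto hRU hlim hg hΩ hab hcd hR1 tp tL tM
  obtain ⟨X2, Y2⟩ := XX_tendsto hRU hlim hg hΩ hab' hcd' hR2 tq (by rw [eba]; exact tL)
    (by rw [edc]; exact tM)
  rw [eba, edc] at X2 Y2
  set κ : ℝ := 1 / ((b - a) * (d - c)) with hκ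
  have hκ0 : 0 < κ := by rw [hκ]; positivity
  have hZ := (X1.sub X2).sub (Y1.sub Y2)
  set D : ℂ := (κ : ℂ) * (UR g a b c d - UR g a' b' c' d') with hD
  have hDe : (κ : ℂ) * ((∫ x in a..b, g (x + d * Complex.I)) -
      ∫ x in a..b, g (x + c * Complex.I)) - (κ : ℂ) * ((∫ x in a'..b', g (x + d' * Complex.I)) -
      ∫ x in a'..b', g (x + c' * Complex.I)) -
      ((κ : ℂ) * ((∫ y in c..d, g (b + y * Complex.I)) - ∫ y in c..d, g (a + y * Complex.I)) -
      (κ : ℂ) * ((∫ y in c'..d', g (b' + y * Complex.I)) -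
        ∫ y in c'..d', g (a' + y * Complex.I))) = D := by
    rw [hD]; unfold UR; ring
  rw [hDe] at hZ
  have hD0 : D ≠ 0 := by
    rw [hD]
    refine mul_ne_zero (by exact_mod_cast hκ0.ne') (sub_ne_zero.2 hne)
  have hDn : 0 < ‖D‖ := norm_pos_iff.2 hD0
  -- the compact set
  have hQc : IsCompact ((Icc a b ×ℂ Icc c d) ∪ (Icc a' b' ×ℂ Icc c' d')) :=
    (isCompact_Icc.reProdIm isCompact_Icc).union (isCompact_Icc.reProdIm isCompact_Icc)
  obtain ⟨s, hs, hsub⟩ := hQc.exists_cthickening_subset_open hΩ (union_subset hR1 hR2)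
  set K := Metric.cthickening s ((Icc a b ×ℂ Icc c d) ∪ (Icc a' b' ×ℂ Icc c' d')) with hK
  have hKc : IsCompact K := hQc.cthickening
  have bp := inBox_ev hRU hs (Q := (Icc a b ×ℂ Icc c d) ∪ (Icc a' b' ×ℂ Icc c' d')) hab hcd
    subset_union_left
  have bq := inBox_ev hRU hs (Q := (Icc a b ×ℂ Icc c d) ∪ (Icc a' b' ×ℂ Icc c' d')) hab' hcd'
    subset_union_right
  rw [eba, edc] at bq
  set τ : ℝ := ‖D‖ / 64 * min (b - a) (d - c) with hτ
  have hτ0 : 0 < τ := by
    have : 0 < min (b - a) (d - c) := lt_min hba hdc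
    positivity
  have e1 : ∀ᶠ j in (U : Filter ℕ), (b - a) / 2 < (L j : ℝ) / R j := tL.eventually_const_lt (by linarith)
  have e2 : ∀ᶠ j in (U : Filter ℕ), (d - c) / 2 < (M j : ℝ) / R j := tM.eventually_const_lt (by linarith)
  have e3 : ∀ᶠ j in (U : Filter ℕ), ‖D‖ / 2 < ‖XX (R j) (f j) (p j) (L j) (M j) -
        XX (R j) (f j) (q j) (L j) (M j) - (YY (R j) (f j) (p j) (L j) (M j) -
        YY (R j) (f j) (q j) (L j) (M j))‖ := hZ.norm.eventually_const_lt (by linarith)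
  have hfalse : ∀ᶠ j in (U : Filter ℕ), False := by
    filter_upwards [hU (cff K hsub hKc τ hτ0), hU (cfl K hsub hKc τ hτ0), hPU (‖D‖ / 16) (by positivity) K hsub hKc,
      bp, bq, e1, e2, e3, hRU.eventually_gt_atTop 0] with j k1 k2 k3 k4 k5 k6 k7 k8 k9
    have hLpos : (0 : ℝ) < L j := by
      have : 0 < (L j : ℝ) / R j := by linarith
      exact (div_pos_iff_of_pos_right k9).1 this
    have hMpos : (0 : ℝ) < M j := by
      have : 0 < (M j : ℝ) / R j := by linarith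
      exact (div_pos_iff_of_pos_right k9).1 this
    have rL : R j / L j ≤ 2 / (b - a) := by
      rw [div_le_div_iff₀ hLpos hba]
      rw [lt_div_iff₀ k9] at k6
      linarith
    have rM : R j / M j ≤ 2 / (d - c) := by
      rw [div_le_div_iff₀ hMpos hdc]
      rw [lt_div_iff₀ k9] at k7
      linarith
    have hL0 : 0 < L j := by exact_mod_cast hLpos
    have hM0 : 0 < M j := by exact_mod_cast hMpos
    have key := nA_sub (e := e j) k9 hL0 hM0 k1 k2 k4 k5
    obtain ⟨m1, m2⟩ := k3 (p j) (q j) (L j) (M j) hL0 hM0 k4 k5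
    have t1 : τ * (R j / L j) ≤ ‖D‖ / 32 := by
      have h1 : τ ≤ ‖D‖ / 64 * (b - a) := by
        rw [hτ]
        exact mul_le_mul_of_nonneg_left (min_le_left _ _) (by positivity)
      have h2 : τ * (R j / L j) ≤ ‖D‖ / 64 * (b - a) * (2 / (b - a)) :=
        mul_le_mul h1 rL (by positivity) (by positivity)
      have h3 : ‖D‖ / 64 * (b - a) * (2 / (b - a)) = ‖D‖ / 32 := by field_simp; ring
      linarith
    have t2 : τ * (R j / M j) ≤ ‖D‖ / 32 := by
      have h1 : τ ≤ ‖D‖ / 64 * (d - c) := by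
        rw [hτ]
        exact mul_le_mul_of_nonneg_left (min_le_right _ _) (by positivity)
      have h2 : τ * (R j / M j) ≤ ‖D‖ / 64 * (d - c) * (2 / (d - c)) :=
        mul_le_mul h1 rM (by positivity) (by positivity)
      have h3 : ‖D‖ / 64 * (d - c) * (2 / (d - c)) = ‖D‖ / 32 := by field_simp; ring
      linarith
    set Z : ℂ := XX (R j) (f j) (p j) (L j) (M j) -
        XX (R j) (f j) (q j) (L j) (M j) - (YY (R j) (f j) (p j) (L j) (M j) -
        YY (R j) (f j) (q j) (L j) (M j)) with hZd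
    set W : ℂ := nA (R j) (al (e j) (ff j)) (p j) (q j) (L j) (M j) -
      nA (R j) (be (e j) (fl j)) (p j) (q j) (L j) (M j) with hW
    have w1 : ‖W‖ ≤ ‖D‖ / 8 := by
      refine (norm_sub_le _ _).trans ?_
      linarith
    have w2 : ‖Z‖ ≤ ‖W‖ + ‖W - Z‖ := by
      have := norm_sub_le W (W - Z)
      rwa [sub_sub_cancel] at this
    have w3 : ‖W - Z‖ ≤ 2 * (τ * (R j / M j)) + 2 * (τ * (R j / L j)) := key
    linarith
  exact hfalse.exists.elim fun _ h => h

end Pool.Agent.H53.FM
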