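import Mathlib
import Pool.Agent.H53.FM.NDBox
import Pool.Agent.H53.FM.GKnown

set_option autoImplicit false
open MeasureTheory Set Filter Topology

/-! # The response function is determined by the square

`TrackAB` : the input of `TrackIn` without the linear response. `LinT` : the linear response for a GIVEN
response function. `g_fixed` : a response function with the bounds `GHypX` for which the linear response holds
for a non-degenerate family is close to a solution of `G (z + π / 2) = -i G z`. -/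

namespace Pool.Agent.H53.FM

open Pool.Agent.Q1.M4 Pool.Agent.H25.Q1.Close Pool.Agent.Q1.M6f Pool.Agent.Q1.M6f.Glue

/-- `TrackIn` without the linear response -/
structure TrackAB (R : ℕ → ℝ) (F : Filter ℕ) (Ω : Set ℂ) (V : ℕ → ℂ → ℤ × ℤ → ℂ)
    (e A B : ℕ → ℤ × ℤ → ℂ) : Prop where
  ee : ∀ K ⊆ Ω, IsCompact K → ∀ ε > 0, ∀ᶠ j in F, ∀ u v : ℤ × ℤ, Ev u → Ev v →
    lat u / (R j : ℂ) ∈ K → lat v / (R j : ℂ) ∈ K → ‖e j u - e j v‖ ≤ ε
  ab : ∀ K ⊆ Ω, IsCompact K → ∃ ρ1 > 0, ∀ ρ : ℝ, 0 < ρ → ρ < ρ1 → ∀ ε > 0, ∀ᶠ j in F, ∀ t : ℝ, |t| ≤ 1 →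
    ∀ u v : ℤ × ℤ, Ev u → Ev v → lat u / (R j : ℂ) ∈ K → lat v / (R j : ℂ) ∈ K →
    ‖V j (rap ⌊ρ * R j⌋₊ t) u - V j (rap ⌊ρ * R j⌋₊ t) v‖ ≤ ε
  adA : Adj R F Ω A
  adB : Adj R F Ω B

variable {R : ℕ → ℝ} {F : Filter ℕ} {Ω : Set ℂ} {V : ℕ → ℂ → ℤ × ℤ → ℂ} {e A B : ℕ → ℤ × ℤ → ℂ}

theorem _root_.Pool.Agent.Q1.M6f.Glue.TrackIn.toAB (h : TrackIn R F Ω V e A B) :
    TrackAB R F Ω V e A B := ⟨h.ee, h.ab, h.adA, h.adB⟩

/-- **Linear response for the given function `G`** at the scale `j`. -/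
def LinT (R : ℕ → ℝ) (V : ℕ → ℂ → ℤ × ℤ → ℂ) (e A B : ℕ → ℤ × ℤ → ℂ) (G : ℂ → ℂ) (j : ℕ) (ρ ε : ℝ)
    (K : Set ℂ) : Prop :=
  ∀ t : ℝ, |t| ≤ 1 → ∀ u v : ℤ × ℤ, Ev u → Ev v → lat u / (R j : ℂ) ∈ K → lat v / (R j : ℂ) ∈ K →
    ‖(V j (rap ⌊ρ * R j⌋₊ t) u - V j (rap ⌊ρ * R j⌋₊ t) v) - (e j u - e j v) -
      (⌊ρ * R j⌋₊ : ℂ) * (G (pt t) * (A j u - A j v) +
        G (pt t + (Real.pi / 2 : ℝ)) * (B j u - B j v))‖ ≤ ε * ρ

/-- non-degeneracy at the scale `j` -/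
def NDj (R : ℝ) (A B : ℤ × ℤ → ℂ) (K : Set ℂ) (κ : ℝ) : Prop :=
  ∃ (a b : ℤ × ℤ) (L M : ℕ), 0 < L ∧ 0 < M ∧ InBox {v | lat v / (R : ℂ) ∈ K} a L M ∧
    InBox {v | lat v / (R : ℂ) ∈ K} b L M ∧ (κ ≤ ‖nA R A a b L M‖ ∨ κ ≤ ‖nA R B a b L M‖)

theorem GHypX.restr {C c Y Y' : ℝ} {G : ℂ → ℂ} (hG : GHypX C c Y' G) (hY : Y ≤ Y') : GHypX C c Y G := by
  have hsub : UBY Y ⊆ UBY Y' := fun z hz => ⟨hz.1, lt_of_lt_of_le hz.2 hY⟩
  exact ⟨GHyp.restr hG.toGHyp hY, hG.diffX.mono hsub, fun z hz => hG.boundX z (hsub hz)⟩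

/-- from the linear response to the relation on the even rows, one scale -/
theorem LinT.even {G : ℂ → ℂ} {j : ℕ} {ρ ε δ : ℝ} {K : Set ℂ} (h : LinT R V e A B G j ρ ε K) (hρ : 0 < ρ)
    (hR : 0 < R j) (hR2 : 2 / ρ < R j) (hε : ε ≤ δ / 8)
    (hee : ∀ u v : ℤ × ℤ, Ev u → Ev v → lat u / (R j : ℂ) ∈ K → lat v / (R j : ℂ) ∈ K →
      ‖e j u - e j v‖ ≤ δ * ρ / 8)
    (hab : ∀ t : ℝ, |t| ≤ 1 → ∀ u v : ℤ × ℤ, Ev u → Ev v → lat u / (R j : ℂ) ∈ K →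
      lat v / (R j : ℂ) ∈ K →
      ‖V j (rap ⌊ρ * R j⌋₊ t) u - V j (rap ⌊ρ * R j⌋₊ t) v‖ ≤ δ * ρ / 8) :
    ∀ t : ℝ, |t| ≤ 1 → ∀ u v : ℤ × ℤ, Ev u → Ev v → lat u / (R j : ℂ) ∈ K → lat v / (R j : ℂ) ∈ K →
      ‖G (pt t) * (A j u - A j v) + G (pt t + (Real.pi / 2 : ℝ)) * (B j u - B j v)‖ ≤ δ / R j := by
  intro t ht u v eu ev hu hv
  have k1 := hab t ht u v eu ev hu hv
  have k2 := hee u v eu ev hu hv
  have k3 := h t ht u v eu ev hu hv
  have hρR : 2 < ρ * R j := by rw [div_lt_iff₀ hρ] at hR2; linarith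
  have hnlt := Nat.lt_floor_add_one (ρ * R j)
  set n : ℕ := ⌊ρ * R j⌋₊ with hn
  have hn2 : ρ * R j / 2 ≤ n := by linarith
  set S : ℂ := G (pt t) * (A j u - A j v) + G (pt t + (Real.pi / 2 : ℝ)) * (B j u - B j v) with hS
  have hδ : 0 ≤ δ * ρ := by
    have := (norm_nonneg _).trans k2
    linarith
  have k4 : ‖(n : ℂ) * S‖ ≤ δ * ρ / 2 := by
    have e0 : (n : ℂ) * S = (V j (rap n t) u - V j (rap n t) v) - (e j u - e j v) -
        ((V j (rap n t) u - V j (rap n t) v) - (e j u - e j v) - (n : ℂ) * S) := by ring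
    rw [e0]
    have a1 := norm_sub_le ((V j (rap n t) u - V j (rap n t) v) - (e j u - e j v))
      ((V j (rap n t) u - V j (rap n t) v) - (e j u - e j v) - (n : ℂ) * S)
    have a2 := norm_sub_le (V j (rap n t) u - V j (rap n t) v) (e j u - e j v)
    have a3 : ε * ρ ≤ δ / 8 * ρ := mul_le_mul_of_nonneg_right hε hρ.le
    have : δ / 8 * ρ = δ * ρ / 8 := by ring
    linarith
  rw [norm_mul, Complex.norm_natCast] at k4
  rw [le_div_iff₀ hR]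
  have h8 : ρ * R j / 2 * ‖S‖ ≤ δ * ρ / 2 := (mul_le_mul_of_nonneg_right hn2 (norm_nonneg _)).trans k4
  have h9 : ρ * (‖S‖ * R j) ≤ ρ * δ := by linarith
  exact le_of_mul_le_mul_left h9 hρ

/-- **The response function is determined** by the linear response of a non-degenerate family. -/
theorem g_fixed (hR : Tendsto R F atTop) (hΩ : IsOpen Ω) (T : TrackAB R F Ω V e A B)
    (hnd : ∃ κ > 0, ∃ K ⊆ Ω, IsCompact K ∧ ∀ᶠ j in F, NDj (R j) (A j) (B j) K κ) :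
    ∀ C c : ℝ, 0 < c → ∀ ε > 0, ∀ Y₁ : ℝ, ∃ ε' > 0, ∃ Y : ℝ, ∃ ρ1 > 0, ∃ K ⊆ Ω, IsCompact K ∧
      ∀ ρ : ℝ, 0 < ρ → ρ < ρ1 → ∀ᶠ j in F, ∀ G : ℂ → ℂ, GHypX C c Y G →
        LinT R V e A B G j ρ ε' K → ∀ z ∈ KB Y₁, ‖G (z + (Real.pi / 2 : ℝ)) + Complex.I * G z‖ ≤ ε := by
  intro C c hc ε hε Y₁
  obtain ⟨κ, hκ, K0, hK0, hK0c, hnd⟩ := hnd
  obtain ⟨δ, hδ, Y, hgk⟩ := g_known C c (min κ 1) ε Y₁ hc (lt_min hκ one_pos) hε
  obtain ⟨s, hs, hsub⟩ := hK0c.exists_cthickening_subset_open hΩ hK0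
  set K := Metric.cthickening s K0 with hK
  have hKc : IsCompact K := hK0c.cthickening
  obtain ⟨ρ1, hρ1, hab⟩ := T.ab K hsub hKc
  have hC1 : 0 < |C| + 1 := by positivity
  refine ⟨δ / 2 / 8, by positivity, max Y 2, ρ1, hρ1, K, hsub, hKc, fun ρ hρ hρl => ?_⟩
  filter_upwards [T.ee K hsub hKc (δ / 2 * ρ / 8) (by positivity), hab ρ hρ hρl (δ / 2 * ρ / 8) (by positivity),
    T.adA K0 hK0 hK0c (δ / (24 * (|C| + 1))) (by positivity),
    T.adB K0 hK0 hK0c (δ / (24 * (|C| + 1))) (by positivity), hnd,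
    hR.eventually_gt_atTop 0, hR.eventually_gt_atTop (2 / ρ),
    hR.eventually_gt_atTop (1 / s)] with j h1 h2 h3 h4 h5 h6 h7 h8 G hG hL
  have hev := hL.even hρ h6 h7 le_rfl h1 h2
  -- all rows
  have hall : ∀ t : ℝ, |t| ≤ 1 → ∀ u v : ℤ × ℤ, lat u / (R j : ℂ) ∈ K0 → lat v / (R j : ℂ) ∈ K0 →
      ‖G (pt t) * (A j u - A j v) + G (pt t + (Real.pi / 2 : ℝ)) * (B j u - B j v)‖ ≤ δ / R j := by
    intro t ht u v hu hv
    obtain ⟨b1, b2⟩ := G_le hG.toGHyp (le_max_right Y 2) ht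
    have nb : ∀ v : ℤ × ℤ, lat v / (R j : ℂ) ∈ K0 → ∃ v' : ℤ × ℤ, Ev v' ∧
        lat v' / (R j : ℂ) ∈ K ∧ ‖A j v - A j v'‖ ≤ δ / (24 * (|C| + 1)) / R j ∧
        ‖B j v - B j v'‖ ≤ δ / (24 * (|C| + 1)) / R j := by
      intro v hv
      rcases Int.emod_two_eq_zero_or_one v.2 with h0 | h0
      · refine ⟨v, h0, Metric.self_subset_cthickening _ hv, ?_, ?_⟩ <;>
        · rw [sub_self, norm_zero]; positivity
      · refine ⟨v - uu, ?_, ?_, h3 v hv, h4 v hv⟩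
        · unfold Ev uu
          simp only [Prod.snd_sub]
          omega
        · refine Metric.mem_cthickening_of_dist_le _ _ s _ hv ?_
          have e1 : lat (v - uu) / (R j : ℂ) - lat v / (R j : ℂ) = -(Complex.I / (R j : ℂ)) := by
            have : lat (v - uu) = lat v - Complex.I := by
              apply Complex.ext <;> simp [lat, uu]
            rw [this]; ring
          rw [dist_eq_norm, e1, norm_neg, norm_div, Complex.norm_I, Complex.norm_real,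
            Real.norm_of_nonneg h6.le]
          rw [div_lt_iff₀ hs] at h8
          rw [div_le_iff₀ h6]
          linarith
    obtain ⟨u', eu, hu', a1, a2⟩ := nb u hu
    obtain ⟨v', ev, hv', a3, a4⟩ := nb v hv
    have k0 := hev t ht u' v' eu ev hu' hv'
    have e0 : G (pt t) * (A j u - A j v) + G (pt t + (Real.pi / 2 : ℝ)) * (B j u - B j v) =
        (G (pt t) * (A j u' - A j v') + G (pt t + (Real.pi / 2 : ℝ)) * (B j u' - B j v')) +
        (G (pt t) * (A j u - A j u') - G (pt t) * (A j v - A j v') +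
        (G (pt t + (Real.pi / 2 : ℝ)) * (B j u - B j u') -
          G (pt t + (Real.pi / 2 : ℝ)) * (B j v - B j v'))) := by ring
    rw [e0]
    have m : ∀ g d : ℂ, ‖g‖ ≤ 3 * (|C| + 1) → ‖d‖ ≤ δ / (24 * (|C| + 1)) / R j → ‖g * d‖ ≤ δ / 8 / R j := by
      intro g d h1 h2
      rw [norm_mul]
      refine (mul_le_mul h1 h2 (norm_nonneg _) (by positivity)).trans (le_of_eq ?_)
      field_simp
      ring
    have m1 := m _ _ b1 a1
    have m2 := m _ _ b2 a2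
    have m3 := m _ _ b1 a3
    have m4 := m _ _ b2 a4
    have n0 := norm_add_le (G (pt t) * (A j u' - A j v') +
      G (pt t + (Real.pi / 2 : ℝ)) * (B j u' - B j v'))
      (G (pt t) * (A j u - A j u') - G (pt t) * (A j v - A j v') +
        (G (pt t + (Real.pi / 2 : ℝ)) * (B j u - B j u') -
          G (pt t + (Real.pi / 2 : ℝ)) * (B j v - B j v')))
    have n1 := norm_add_le (G (pt t) * (A j u - A j u') - G (pt t) * (A j v - A j v'))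
      (G (pt t + (Real.pi / 2 : ℝ)) * (B j u - B j u') - G (pt t + (Real.pi / 2 : ℝ)) * (B j v - B j v'))
    have n2 := norm_sub_le (G (pt t) * (A j u - A j u')) (G (pt t) * (A j v - A j v'))
    have n3 := norm_sub_le (G (pt t + (Real.pi / 2 : ℝ)) * (B j u - B j u'))
      (G (pt t + (Real.pi / 2 : ℝ)) * (B j v - B j v'))
    have n4 : δ / 2 / R j + (δ / 8 / R j + δ / 8 / R j + (δ / 8 / R j + δ / 8 / R j)) = δ / R j := by ring
    linarith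
  -- box averages
  obtain ⟨a, b, L, M, hL0, hM0, ia, ib, hor⟩ := h5
  have hL' : (0 : ℝ) < L := by exact_mod_cast hL0
  have hM' : (0 : ℝ) < M := by exact_mod_cast hM0
  set x := nA (R j) (A j) a b L M with hx
  set y := nA (R j) (B j) a b L M with hy
  have havg : ∀ t : ℝ, |t| ≤ 1 → ‖G (pt t) * x + G (pt t + (Real.pi / 2 : ℝ)) * y‖ ≤ δ := by
    intro t ht
    have k := rel_avg (α := A j) (β := B j) (S := {v | lat v / (R j : ℂ) ∈ K0})
      (fun u hu v hv => hall t ht u v hu hv) ia ib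
    set μ : ℝ := R j / (L * M) with hμ
    have hμ0 : 0 < μ := by rw [hμ]; positivity
    have e1 : G (pt t) * x + G (pt t + (Real.pi / 2 : ℝ)) * y =
        (μ : ℂ) * (G (pt t) * (SA (A j) a L M - SA (A j) b L M) +
          G (pt t + (Real.pi / 2 : ℝ)) * (SA (B j) a L M - SA (B j) b L M)) := by
      rw [hx, hy]; unfold nA; rw [← hμ]; ring
    rw [e1, norm_mul, Complex.norm_real, Real.norm_of_nonneg hμ0.le]
    refine (mul_le_mul_of_nonneg_left k hμ0.le).trans (le_of_eq ?_)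
    rw [hμ]
    field_simp
  -- normalisation
  set σ : ℝ := max 1 (max ‖x‖ ‖y‖) with hσ
  have hσ1 : 1 ≤ σ := le_max_left _ _
  have hσ0 : 0 < σ := by linarith
  have hxs : ‖x‖ ≤ σ := (le_max_left _ _).trans (le_max_right _ _)
  have hys : ‖y‖ ≤ σ := (le_max_right _ _).trans (le_max_right _ _)
  have nσ : ∀ z : ℂ, ‖z / (σ : ℂ)‖ = ‖z‖ / σ := fun z => by
    rw [norm_div, Complex.norm_real, Real.norm_of_nonneg hσ0.le]
  refine hgk G (x / (σ : ℂ)) (y / (σ : ℂ)) (hG.restr (le_max_left _ _)) ?_ ?_ ?_ ?_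
  · rw [nσ, div_le_one hσ0]; exact hxs
  · rw [nσ, div_le_one hσ0]; exact hys
  · rw [nσ, nσ, le_div_iff₀ hσ0, le_div_iff₀ hσ0]
    by_cases h1 : max ‖x‖ ‖y‖ ≤ 1
    · have e1 : σ = 1 := max_eq_left h1
      rw [e1, mul_one]
      rcases hor with h | h
      · exact Or.inl ((min_le_left _ _).trans h)
      · exact Or.inr ((min_le_left _ _).trans h)
    · have e1 : σ = max ‖x‖ ‖y‖ := max_eq_right (not_le.1 h1).le
      have e2 : min κ 1 * σ ≤ σ := by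
        calc min κ 1 * σ ≤ 1 * σ := mul_le_mul_of_nonneg_right (min_le_right _ _) hσ0.le
          _ = σ := one_mul _
      rcases max_cases ‖x‖ ‖y‖ with h | h
      · left; rw [← h.1, ← e1]; exact e2
      · right; rw [← h.1, ← e1]; exact e2
  · intro t ht
    have e1 : G (pt t) * (x / (σ : ℂ)) + G (pt t + (Real.pi / 2 : ℝ)) * (y / (σ : ℂ)) =
        (G (pt t) * x + G (pt t + (Real.pi / 2 : ℝ)) * y) / (σ : ℂ) := by ring
    rw [e1, nσ, div_le_iff₀ hσ0]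
    refine (havg t ht).trans ?_
    nlinarith

/-- the two values needed for the windows (rapidity `π / 2`) -/
theorem g_fixed2 (hR : Tendsto R F atTop) (hΩ : IsOpen Ω) (T : TrackAB R F Ω V e A B)
    (hnd : ∃ κ > 0, ∃ K ⊆ Ω, IsCompact K ∧ ∀ᶠ j in F, NDj (R j) (A j) (B j) K κ) :
    ∀ C c : ℝ, 0 < c → ∀ ε > 0, ∃ ε' > 0, ∃ Y : ℝ, ∃ ρ1 > 0, ∃ K ⊆ Ω, IsCompact K ∧
      ∀ ρ : ℝ, 0 < ρ → ρ < ρ1 → ∀ᶠ j in F, ∀ G : ℂ → ℂ, GHypX C c Y G →
        LinT R V e A B G j ρ ε' K →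
        ‖G (Real.pi : ℝ) + Complex.I * G (Real.pi / 2 : ℝ)‖ ≤ ε ∧
        ‖G (Real.pi / 2 : ℝ) + Complex.I * G 0‖ ≤ ε := by
  intro C c hc ε hε
  obtain ⟨ε', hε', Y, ρ1, hρ1, K, hK, hKc, h⟩ := g_fixed hR hΩ T hnd C c hc ε hε 0
  refine ⟨ε', hε', Y, ρ1, hρ1, K, hK, hKc, fun ρ h1 h2 => ?_⟩
  filter_upwards [h ρ h1 h2] with j hj G hG hL
  have hpi := Real.pi_pos
  have k1 := hj G hG hL ((Real.pi / 2 : ℝ) : ℂ) ⟨by rw [Complex.ofReal_re]; linarith,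
    by rw [Complex.ofReal_re], by rw [Complex.ofReal_im, abs_zero]⟩
  have k2 := hj G hG hL 0 ⟨by rw [Complex.zero_re], by rw [Complex.zero_re]; linarith,
    by rw [Complex.zero_im, abs_zero]⟩
  rw [zero_add] at k2
  have e1 : ((Real.pi / 2 : ℝ) : ℂ) + ((Real.pi / 2 : ℝ) : ℂ) = ((Real.pi : ℝ) : ℂ) := by
    rw [← Complex.ofReal_add]; congr 1; ring
  rw [e1] at k1
  exact ⟨k1, k2⟩

end Pool.Agent.H53.FM
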