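import Mathlib
import Pool.Agent.H53.FM.NDBox
import Pool.Agent.H44.FM.HolT

set_option autoImplicit false
open MeasureTheory Set Filter Topology intervalIntegral

/-! # The limit of the primitives of a shape is not affine -/

namespace Pool.Agent.H53.FM

open Pool.Agent.Q1.M4 Pool.Agent.Q1.M6f Pool.Agent.Q1.M6f.Glue

/-! ### First order expansion of the increments over a small square -/

lemma sq_mem {z : ℂ} {s : ℝ} (hs : 0 ≤ s) {x y : ℝ} (hx : x ∈ Icc z.re (z.re + s))
    (hy : y ∈ Icc z.im (z.im + s)) : ‖(x + y * Complex.I : ℂ) - z‖ ≤ 2 * s := by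
  refine (Complex.norm_le_abs_re_add_abs_im _).trans ?_
  have h1 : |((x + y * Complex.I : ℂ) - z).re| ≤ s := by
    simp only [Complex.sub_re, Complex.add_re, Complex.ofReal_re, Complex.mul_re, Complex.I_re,
      Complex.ofReal_im, Complex.I_im]
    rw [abs_le]; constructor <;> linarith [hx.1, hx.2]
  have h2 : |((x + y * Complex.I : ℂ) - z).im| ≤ s := by
    simp only [Complex.sub_im, Complex.add_im, Complex.ofReal_im, Complex.mul_im, Complex.I_re,
      Complex.ofReal_re, Complex.I_im]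
    rw [abs_le]; constructor <;> linarith [hy.1, hy.2]
  linarith

theorem UR_expand {g : ℂ → ℂ} {g' z : ℂ} {r : ℝ} (hr : 0 < r) (hc : ContinuousOn g (Metric.ball z r))
    (hd : HasDerivAt g g' z) {ε : ℝ} (hε : 0 < ε) : ∃ δ > 0, ∀ s : ℝ, 0 < s → s < δ →
      ‖UR g z.re (z.re + s) z.im (z.im + s) - (s : ℂ) ^ 2 * ((Complex.I - 1) * g')‖ ≤ 8 * ε * s ^ 2 := by
  have h1 := hd.isLittleO.def hε
  rw [Metric.eventually_nhds_iff] at h1
  obtain ⟨δ1, hδ1, h1⟩ := h1
  set δ : ℝ := min δ1 r / 3 with hδ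
  have hm : 0 < min δ1 r := lt_min hδ1 hr
  refine ⟨δ, by positivity, fun s hs hsδ => ?_⟩
  have hs1 : 2 * s < δ1 := by
    have := min_le_left δ1 r
    rw [hδ] at hsδ; linarith
  have hs2 : 2 * s < r := by
    have := min_le_right δ1 r
    rw [hδ] at hsδ; linarith
  -- pairs of points
  have pair : ∀ w w' : ℂ, ‖w - z‖ ≤ 2 * s → ‖w' - z‖ ≤ 2 * s → ‖g w - g w' - (w - w') * g'‖ ≤ 4 * ε * s := by
    intro w w' hw hw'
    have a1 := h1 (y := w) (by rw [dist_eq_norm]; linarith)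
    have a2 := h1 (y := w') (by rw [dist_eq_norm]; linarith)
    simp only [smul_eq_mul] at a1 a2
    have e1 : g w - g w' - (w - w') * g' = (g w - g z - (w - z) * g') - (g w' - g z - (w' - z) * g') := by
      ring
    rw [e1]
    refine (norm_sub_le _ _).trans ?_
    have b1 : ε * ‖w - z‖ ≤ ε * (2 * s) := mul_le_mul_of_nonneg_left hw hε.le
    have b2 : ε * ‖w' - z‖ ≤ ε * (2 * s) := mul_le_mul_of_nonneg_left hw' hε.le
    linarith
  have hx0 : z.re ∈ Icc z.re (z.re + s) := ⟨le_rfl, by linarith⟩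
  have hx1 : z.re + s ∈ Icc z.re (z.re + s) := ⟨by linarith, le_rfl⟩
  have hy0 : z.im ∈ Icc z.im (z.im + s) := ⟨le_rfl, by linarith⟩
  have hy1 : z.im + s ∈ Icc z.im (z.im + s) := ⟨by linarith, le_rfl⟩
  have mem : ∀ {x y : ℝ}, x ∈ Icc z.re (z.re + s) → y ∈ Icc z.im (z.im + s) →
      (x + y * Complex.I : ℂ) ∈ Metric.ball z r := by
    intro x y hx hy
    rw [Metric.mem_ball, dist_eq_norm]
    exact (sq_mem hs.le hx hy).trans_lt hs2
  have ih : ∀ y ∈ Icc z.im (z.im + s), IntervalIntegrable (fun x : ℝ => g (x + y * Complex.I)) volume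
      z.re (z.re + s) := by
    intro y hy
    apply ContinuousOn.intervalIntegrable
    rw [uIcc_of_le (by linarith)]
    exact hc.comp (f := fun x : ℝ => (x + y * Complex.I : ℂ)) (by fun_prop) fun x hx => mem hx hy
  have iv : ∀ x ∈ Icc z.re (z.re + s), IntervalIntegrable (fun y : ℝ => g (x + y * Complex.I)) volume
      z.im (z.im + s) := by
    intro x hx
    apply ContinuousOn.intervalIntegrable
    rw [uIcc_of_le (by linarith)]
    exact hc.comp (f := fun y : ℝ => (x + y * Complex.I : ℂ)) (by fun_prop) fun y hy => mem hx hy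
  -- horizontal lines
  have e1 : ‖((∫ x in z.re..(z.re + s), g (x + ((z.im + s : ℝ) : ℂ) * Complex.I)) -
      ∫ x in z.re..(z.re + s), g (x + (z.im : ℂ) * Complex.I)) - (s : ℂ) * ((s : ℂ) * Complex.I * g')‖ ≤
      4 * ε * s * |z.re + s - z.re| := by
    have h2 : (s : ℂ) * ((s : ℂ) * Complex.I * g') = ∫ _x in z.re..(z.re + s), (s : ℂ) * Complex.I * g' := by
      rw [intervalIntegral.integral_const, Complex.real_smul, add_sub_cancel_left]
    rw [h2, ← intervalIntegral.integral_sub (ih _ hy1) (ih _ hy0), ← intervalIntegral.integral_sub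
      ((ih _ hy1).sub (ih _ hy0)) intervalIntegrable_const]
    refine intervalIntegral.norm_integral_le_of_norm_le_const fun x hx => ?_
    rw [uIoc_of_le (by linarith)] at hx
    have hx' : x ∈ Icc z.re (z.re + s) := ⟨hx.1.le, hx.2⟩
    have h3 := pair (x + ((z.im + s : ℝ) : ℂ) * Complex.I) (x + (z.im : ℂ) * Complex.I)
      (sq_mem hs.le hx' hy1) (sq_mem hs.le hx' hy0)
    have h4 : ((x : ℂ) + ((z.im + s : ℝ) : ℂ) * Complex.I - (x + (z.im : ℂ) * Complex.I)) * g' =
        (s : ℂ) * Complex.I * g' := by push_cast; ring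
    rwa [h4] at h3
  have e2 : ‖((∫ y in z.im..(z.im + s), g (((z.re + s : ℝ) : ℂ) + y * Complex.I)) -
      ∫ y in z.im..(z.im + s), g ((z.re : ℂ) + y * Complex.I)) - (s : ℂ) * ((s : ℂ) * g')‖ ≤
      4 * ε * s * |z.im + s - z.im| := by
    have h2 : (s : ℂ) * ((s : ℂ) * g') = ∫ _y in z.im..(z.im + s), (s : ℂ) * g' := by
      rw [intervalIntegral.integral_const, Complex.real_smul, add_sub_cancel_left]
    rw [h2, ← intervalIntegral.integral_sub (iv _ hx1) (iv _ hx0), ← intervalIntegral.integral_sub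
      ((iv _ hx1).sub (iv _ hx0)) intervalIntegrable_const]
    refine intervalIntegral.norm_integral_le_of_norm_le_const fun y hy => ?_
    rw [uIoc_of_le (by linarith)] at hy
    have hy' : y ∈ Icc z.im (z.im + s) := ⟨hy.1.le, hy.2⟩
    have h3 := pair (((z.re + s : ℝ) : ℂ) + y * Complex.I) ((z.re : ℂ) + y * Complex.I)
      (sq_mem hs.le hx1 hy') (sq_mem hs.le hx0 hy')
    have h4 : (((z.re + s : ℝ) : ℂ) + y * Complex.I - ((z.re : ℂ) + y * Complex.I)) * g' =
        (s : ℂ) * g' := by push_cast; ring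
    rwa [h4] at h3
  rw [add_sub_cancel_left, abs_of_pos hs] at e1 e2
  have e3 : UR g z.re (z.re + s) z.im (z.im + s) - (s : ℂ) ^ 2 * ((Complex.I - 1) * g') =
      (((∫ x in z.re..(z.re + s), g (x + ((z.im + s : ℝ) : ℂ) * Complex.I)) -
      ∫ x in z.re..(z.re + s), g (x + (z.im : ℂ) * Complex.I)) - (s : ℂ) * ((s : ℂ) * Complex.I * g')) -
      (((∫ y in z.im..(z.im + s), g (((z.re + s : ℝ) : ℂ) + y * Complex.I)) -
      ∫ y in z.im..(z.im + s), g ((z.re : ℂ) + y * Complex.I)) - (s : ℂ) * ((s : ℂ) * g')) := by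
    unfold UR; ring
  rw [e3]
  refine (norm_sub_le _ _).trans ?_
  have : 4 * ε * s * s + 4 * ε * s * s = 8 * ε * s ^ 2 := by ring
  linarith

/-- A function with two different derivatives satisfies `NonTI`. -/
theorem nonTI_of_deriv {g : ℂ → ℂ} {Ω : Set ℂ} (hΩ : IsOpen Ω) (hc : ContinuousOn g Ω) {z1 z2 g1 g2 : ℂ}
    (h1 : z1 ∈ Ω) (h2 : z2 ∈ Ω) (d1 : HasDerivAt g g1 z1) (d2 : HasDerivAt g g2 z2) (hne : g1 ≠ g2) :
    NonTI g Ω := by
  obtain ⟨r1, hr1, b1⟩ := Metric.isOpen_iff.1 hΩ z1 h1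
  obtain ⟨r2, hr2, b2⟩ := Metric.isOpen_iff.1 hΩ z2 h2
  have hk : 0 < ‖(Complex.I - 1) * (g1 - g2)‖ := by
    refine norm_pos_iff.2 (mul_ne_zero ?_ (sub_ne_zero.2 hne))
    intro h
    have := congrArg Complex.re h
    simp at this
  set k : ℝ := ‖(Complex.I - 1) * (g1 - g2)‖ with hkd
  obtain ⟨δ1, hδ1, e1⟩ := UR_expand hr1 (hc.mono b1) d1 (ε := k / 32) (by positivity)
  obtain ⟨δ2, hδ2, e2⟩ := UR_expand hr2 (hc.mono b2) d2 (ε := k / 32) (by positivity)
  set s : ℝ := min (min δ1 δ2) (min r1 r2) / 3 with hs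
  have hm : 0 < min (min δ1 δ2) (min r1 r2) := lt_min (lt_min hδ1 hδ2) (lt_min hr1 hr2)
  have hs0 : 0 < s := by positivity
  have c1 : min (min δ1 δ2) (min r1 r2) ≤ δ1 := (min_le_left _ _).trans (min_le_left _ _)
  have c2 : min (min δ1 δ2) (min r1 r2) ≤ δ2 := (min_le_left _ _).trans (min_le_right _ _)
  have c3 : min (min δ1 δ2) (min r1 r2) ≤ r1 := (min_le_right _ _).trans (min_le_left _ _)
  have c4 : min (min δ1 δ2) (min r1 r2) ≤ r2 := (min_le_right _ _).trans (min_le_right _ _)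
  have sub : ∀ {z : ℂ} {r : ℝ}, min (min δ1 δ2) (min r1 r2) ≤ r → Metric.ball z r ⊆ Ω →
      Icc z.re (z.re + s) ×ℂ Icc z.im (z.im + s) ⊆ Ω := by
    intro z r hr hb w hw
    apply hb
    rw [Complex.mem_reProdIm] at hw
    have := sq_mem hs0.le hw.1 hw.2
    rw [Complex.re_add_im] at this
    rw [Metric.mem_ball, dist_eq_norm]
    linarith
  have f1 := e1 s hs0 (by linarith)
  have f2 := e2 s hs0 (by linarith)
  refine ⟨z1.re, z1.re + s, z1.im, z1.im + s, z2.re - z1.re, z2.im - z1.im, by linarith, by linarith,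
    sub c3 b1, ?_, ?_⟩
  · rw [show z1.re + (z2.re - z1.re) = z2.re by ring, show z1.re + s + (z2.re - z1.re) = z2.re + s by ring,
      show z1.im + (z2.im - z1.im) = z2.im by ring, show z1.im + s + (z2.im - z1.im) = z2.im + s by ring]
    exact sub c4 b2
  · rw [show z1.re + (z2.re - z1.re) = z2.re by ring, show z1.re + s + (z2.re - z1.re) = z2.re + s by ring,
      show z1.im + (z2.im - z1.im) = z2.im by ring, show z1.im + s + (z2.im - z1.im) = z2.im + s by ring]
    intro heq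
    rw [heq] at f1
    have e3 : (s : ℂ) ^ 2 * ((Complex.I - 1) * (g1 - g2)) =
        (UR g z2.re (z2.re + s) z2.im (z2.im + s) - (s : ℂ) ^ 2 * ((Complex.I - 1) * g2)) -
        (UR g z2.re (z2.re + s) z2.im (z2.im + s) - (s : ℂ) ^ 2 * ((Complex.I - 1) * g1)) := by ring
    have e4 := congrArg norm e3
    rw [norm_mul, norm_pow, Complex.norm_real, Real.norm_of_nonneg hs0.le, ← hkd] at e4
    have e5 := norm_sub_le (UR g z2.re (z2.re + s) z2.im (z2.im + s) - (s : ℂ) ^ 2 * ((Complex.I - 1) * g2))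
      (UR g z2.re (z2.re + s) z2.im (z2.im + s) - (s : ℂ) ^ 2 * ((Complex.I - 1) * g1))
    have hs2 : 0 < s ^ 2 := by positivity
    nlinarith

/-- **Either `NonTI` or affine.** -/
theorem nonTI_or_affine {g : ℂ → ℂ} {Ω : Set ℂ} (hΩ : IsOpen Ω) (hp : IsPreconnected Ω)
    (hd : DifferentiableOn ℂ g Ω) (h : ¬ NonTI g Ω) : ∃ α β : ℂ, ∀ z ∈ Ω, g z = α * z + β := by
  rcases Ω.eq_empty_or_nonempty with h0 | ⟨z0, hz0⟩
  · exact ⟨0, 0, fun z hz => by rw [h0] at hz; exact absurd hz (Set.notMem_empty z)⟩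
  have hdz : ∀ z ∈ Ω, HasDerivAt g (deriv g z) z := fun z hz =>
    (hd.differentiableAt (hΩ.mem_nhds hz)).hasDerivAt
  have hconst : ∀ z ∈ Ω, deriv g z = deriv g z0 := by
    intro z hz
    by_contra hne
    exact h (nonTI_of_deriv hΩ hd.continuousOn hz hz0 (hdz z hz) (hdz z0 hz0) hne)
  set α := deriv g z0 with hα
  refine ⟨α, g z0 - α * z0, fun z hz => ?_⟩
  have h1 : DifferentiableOn ℂ (fun z => g z - α * z) Ω := hd.sub (by fun_prop)
  have h2 : Ω.EqOn (deriv fun z => g z - α * z) 0 := by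
    intro w hw
    have h3 : HasDerivAt (fun z => g z - α * z) (deriv g w - α * 1) w :=
      (hdz w hw).sub ((hasDerivAt_id w).const_mul α)
    rw [h3.deriv, hconst w hw, mul_one, sub_self]
    rfl
  have h4 : g z - α * z = g z0 - α * z0 := hΩ.is_const_of_deriv_eq_zero hp h1 h2 hz hz0
  linear_combination h4

/-! ### Shapes -/

open Pool.Agent.Q1 (Env ph)
open Pool.Agent.H21.FM
open Pool.Agent.H87.FM (gx Rs)
open Pool.Agent.H14.FM (ic sidePt_ic cdir nonconst kap_ne ic_mono)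
open Pool.Agent.H75.Perc (dir dir_cases)

lemma cdir_add_three (k : ℤ) : cdir (k + 3) = -Complex.I * cdir k := by
  unfold cdir
  rcases dir_cases k with ⟨h, e⟩ | ⟨h, e⟩ | ⟨h, e⟩ | ⟨h, e⟩ <;>
    rcases dir_cases (k + 3) with ⟨h', e'⟩ | ⟨h', e'⟩ | ⟨h', e'⟩ | ⟨h', e'⟩ <;>
    first
    | (exfalso; omega)
    | (rw [e, e']; apply Complex.ext <;> simp)

lemma cdir_ne (k : ℤ) : cdir k ≠ 0 := by
  intro h
  have h1 := congrArg Complex.re h
  have h2 := congrArg Complex.im h
  unfold cdir at h1 h2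
  rcases dir_cases k with ⟨-, e⟩ | ⟨-, e⟩ | ⟨-, e⟩ | ⟨-, e⟩ <;> rw [e] at h1 h2 <;> simp at h1 h2

lemma phase_ne (k e : ℤ) : phase k e ≠ 0 := Complex.exp_ne_zero _

lemma phase_three (k : ℤ) : phase (k + 3) 1 = phase k 0 *
    Complex.exp ((4 * Real.pi / 3 : ℝ) * Complex.I) := by
  unfold phase
  rw [← Complex.exp_add]
  congr 1
  push_cast
  ring

/-- an affine function does not satisfy the side conditions -/
lemma affine_absurd {γ : ℂ} {k : ℤ} {r1 r4 : ℝ} (h1 : γ * ((1 / 2 : ℝ) * cdir k) = phase k 0 * r1)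
    (h4 : γ * cdir (k + 3) = phase (k + 3) 1 * r4) : γ = 0 := by
  rw [cdir_add_three, phase_three] at h4
  have hp := phase_ne k 0
  have e1 : γ * cdir k = phase k 0 * (2 * r1) := by
    have : γ * cdir k = 2 * (γ * ((1 / 2 : ℝ) * cdir k)) := by push_cast; ring
    rw [this, h1]; ring
  have e2 : phase k 0 * (-Complex.I * (2 * r1)) =
      phase k 0 * (Complex.exp ((4 * Real.pi / 3 : ℝ) * Complex.I) * r4) := by
    have : γ * (-Complex.I * cdir k) = -Complex.I * (γ * cdir k) := by ring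
    rw [this, e1] at h4
    linear_combination h4
  have e3 := mul_left_cancel₀ hp e2
  have hcos : Real.cos (4 * Real.pi / 3) = -(1 / 2) := by
    rw [show 4 * Real.pi / 3 = Real.pi / 3 + Real.pi by ring, Real.cos_add_pi, Real.cos_pi_div_three]
  have e4 := congrArg Complex.re e3
  rw [Complex.exp_ofReal_mul_I] at e4
  simp only [Complex.mul_re, Complex.add_re, Complex.neg_re, Complex.I_re, Complex.neg_im, Complex.I_im,
    Complex.ofReal_re, Complex.ofReal_im, Complex.re_ofNat, Complex.im_ofNat, Complex.mul_im,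
    Complex.add_im] at e4
  rw [hcos] at e4
  have hr4 : r4 = 0 := by linarith
  rw [hr4] at h4
  have h5 : γ * (-Complex.I * cdir k) = 0 := by rw [h4]; push_cast; ring
  rcases mul_eq_zero.1 h5 with h | h
  · exact h
  · exfalso
    rcases mul_eq_zero.1 h with h | h
    · exact Complex.I_ne_zero (neg_eq_zero.1 h)
    · exact cdir_ne k h

/-- **The limit of the second primitive of a shape is not affine.** -/
theorem nonTI_shape (S : Shape) {X : ℕ → Fin 3 → Env} {H : ℕ → Fin 3 → ℤ × ℤ → ℂ}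
    (hT : ∀ᶠ h in atTop, Tri3 S h (X h) (H h)) (hol : Hol3 S) {U : Ultrafilter ℕ}
    (hU : (U : Filter ℕ) ≤ atTop) : ∃ g : ℂ → ℂ,
      ILim (Rs fun h => h) U (fun h => nrm S.P h (H h 1)) (Om S.P.Q gx gx) g ∧
      ContinuousOn g (Om S.P.Q gx gx) ∧ NonTI g (Om S.P.Q gx gx) := by
  have hid : Tendsto (fun j : ℕ => j) atTop atTop := tendsto_id
  have hlim : ∀ i : Fin 3, ∃ g : ℂ → ℂ, IsLim0 S.P (fun h => h) (fun h => H h i) U g := fun i =>
    exists_isLim0 (Pool.Agent.H76.FM.holdOK S.P Pool.Agent.Q1.M6c.ap_planeK) hid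
      (hT.mono fun h hT => hT.planeK i) U hU
  choose g hg using hlim
  have hdiff := hol X H hT U hU g hg
  have hL : ∀ i, IsLim4 S.P (fun h => h) (fun h => H h i) U (g i) := fun i => (hg i).isLim4 (hdiff i)
  have hTb : ∀ᶠ h : ℕ in (U : Filter ℕ), Tab S h (H h 0) (H h 1) (H h 2) := by
    filter_upwards [hU (eventually_ge_atTop 4), hU hT] with h hh T
    exact tab_of_ctab (by omega) (ctab (by omega) (Pool.Agent.H33.FM.threeW S hh) T.e12 T.e23 T.e34)
      (T.prim 0) (T.prim 1) (T.prim 2)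
  have D := Pool.Agent.H58.FM.dataOK S U hU _ _ _ hTb (g 0) (g 1) (g 2) (hL 0) (hL 1) (hL 2)
  have hnc := nonconst (Pool.Agent.H9.FM.markBound S) hU hTb (hL 1)
  refine ⟨g 1, (preLim_of_isLim0 (hg 1)).ilim hid hU, (hg 1).cont.mono (Om_subset _ _ _), ?_⟩
  by_contra hnon
  obtain ⟨α, β, haff⟩ := nonTI_or_affine (isOpen_Om _ _ _)
    (isPreconnected_Om ic_mono ic_mono S.P.good.conn) (hdiff 1) hnon
  -- on the closed region
  have hreg : ∀ z ∈ Reg S.P.Q ic ic, g 1 z = α * z + β := by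
    intro z hz
    have hcl : closure (Om S.P.Q ic ic) = Reg S.P.Q ic ic := closure_Om ic_mono ic_mono
    have h1 : EqOn (g 1) (fun z => α * z + β) (closure (Om S.P.Q ic ic)) := by
      refine EqOn.of_subset_closure (s := Om S.P.Q ic ic) (fun w hw => haff w hw) ?_ (by fun_prop)
        subset_closure le_rfl
      rw [hcl]
      exact (hg 1).cont
    exact h1 (by rw [hcl]; exact hz)
  have hm : ∀ (n : ℕ) (s : ℝ), 0 ≤ s → s ≤ 1 → S.P.sidePt ic ic n s ∈ Reg S.P.Q ic ic := fun n s h0 h1 =>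
    sidePt_mem ic_mono ic_mono S.P n h0 h1
  have hNm : S.m4 < S.P.N := S.P.hmN
  obtain ⟨a, c, -, s1, -, -⟩ := D.side1 0 S.h02 0 (1 / 2) le_rfl (by norm_num) (by norm_num)
  obtain ⟨a', b', c', s4, -, -⟩ := D.side4 (S.P.N - 1) (by omega) (by omega) 0 1 le_rfl zero_le_one le_rfl
  rw [← mul_sub, hreg _ (hm _ _ (by norm_num) (by norm_num)), hreg _ (hm _ _ le_rfl zero_le_one),
    sidePt_ic, sidePt_ic] at s1
  rw [← mul_sub, hreg _ (hm _ _ zero_le_one le_rfl), hreg _ (hm _ _ le_rfl zero_le_one),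
    sidePt_ic, sidePt_ic] at s4
  have hk : (S.P.side (S.P.N - 1)).2 = (S.P.side 0).2 + 3 := by
    have h1 := S.cvx (S.P.N - 1) (Or.inr (Or.inr (Or.inr (by omega))))
    rw [show S.P.N - 1 + 1 = S.P.N by omega] at h1
    have h2 := S.side_N
    have h3 : S.P.side S.P.N = ((S.P.side 0).1, (S.P.side 0).2 + 4) := h2
    rw [h3] at h1
    have h4 := congrArg Prod.snd h1
    simp only at h4
    omega
  rw [hk] at s4
  have hγ := affine_absurd (γ := (1 - ph 2)⁻¹ * α) (k := (S.P.side 0).2) (r1 := a + c) (r4 := a' + b' + c')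
    (by push_cast at s1 ⊢; linear_combination s1) (by push_cast at s4 ⊢; linear_combination s4)
  have hα : α = 0 := by
    rcases mul_eq_zero.1 hγ with h | h
    · exact absurd h (inv_ne_zero kap_ne)
    · exact h
  apply hnc
  have h0m : pt ic ic (S.P.vert 0) ∈ Reg S.P.Q ic ic := by
    have := hm 0 0 le_rfl zero_le_one
    rwa [S.P.sidePt_zero] at this
  rw [hreg _ (hm 0 (1 / 2) (by norm_num) (by norm_num)), hreg _ h0m, hα, zero_mul, zero_mul]

end Pool.Agent.H53.FM
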