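import Mathlib
import Pool.Agent.H53.FM.GFix
import Pool.Agent.H53.FM.NonAff

set_option autoImplicit false
open Filter Topology

/-! # The response function is determined by a shape for which holomorphy is known -/

namespace Pool.Agent.H53.FM

open Pool.Agent.Q1.M4 Pool.Agent.H25.Q1.Close Pool.Agent.Q1.M6f Pool.Agent.Q1.M6f.Glue
open Pool.Agent.Q1 (Env)
open Pool.Agent.H21.FM
open Pool.Agent.H87.FM (gx Rs Rs_top)

/-- **The response function is determined by a shape `S`** with `Hol3 S` (second environment). `e`, `ff`, `fl`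
and `V` are the functions of one kind of track (see `Tracks`); only `TrackAB` is used, not the linear
response. -/
theorem g_fixed_shape (S : Shape) {X : ℕ → Fin 3 → Env} {H : ℕ → Fin 3 → ℤ × ℤ → ℂ}
    (hT : ∀ᶠ h in atTop, Tri3 S h (X h) (H h)) (hol : Hol3 S) {e ff fl : ℕ → ℤ × ℤ → ℂ}
    {V : ℕ → ℂ → ℤ × ℤ → ℂ}
    (cff : ∀ K ⊆ Om S.P.Q gx gx, IsCompact K → ∀ τ > 0, ∀ᶠ j : ℕ in atTop,
      Cls {v | lat v / (Rs (fun h => h) j : ℂ) ∈ K} τ (nrm S.P j (H j 1)) (ff j))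
    (cfl : ∀ K ⊆ Om S.P.Q gx gx, IsCompact K → ∀ τ > 0, ∀ᶠ j : ℕ in atTop,
      Cls {v | lat v / (Rs (fun h => h) j : ℂ) ∈ K} τ (nrm S.P j (H j 1)) (fl j))
    (T : TrackAB (Rs fun h => h) atTop (Om S.P.Q gx gx) V e (fun j => al (e j) (ff j))
      (fun j => be (e j) (fl j))) :
    ∀ C c : ℝ, 0 < c → ∀ ε > 0, ∃ ε' > 0, ∃ Y : ℝ, ∃ ρ1 > 0, ∃ K ⊆ Om S.P.Q gx gx, IsCompact K ∧
      ∀ ρ : ℝ, 0 < ρ → ρ < ρ1 → ∀ᶠ j : ℕ in atTop, ∀ G : ℂ → ℂ, GHypX C c Y G →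
        LinT (Rs fun h => h) V e (fun j => al (e j) (ff j)) (fun j => be (e j) (fl j)) G j ρ ε' K →
        ‖G (Real.pi : ℝ) + Complex.I * G (Real.pi / 2 : ℝ)‖ ≤ ε ∧
        ‖G (Real.pi / 2 : ℝ) + Complex.I * G 0‖ ≤ ε :=
  g_fixed2 (Rs_top tendsto_id) (isOpen_Om _ _ _) T
    (nd_boxes (Rs_top tendsto_id) (isOpen_Om _ _ _) (fun _ hU => nonTI_shape S hT hol hU) cff cfl)

/-- the same from the complete tracks (second environment) -/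
theorem g_fixed_tracks (S : Shape) {X : ℕ → Fin 3 → Env} {H : ℕ → Fin 3 → ℤ × ℤ → ℂ}
    (hT : ∀ᶠ h in atTop, Tri3 S h (X h) (H h)) (hol : Hol3 S) {e ff fl e' ff' fr : ℕ → ℤ × ℤ → ℂ}
    {V V' : ℕ → ℂ → ℤ × ℤ → ℂ}
    (T : Tracks (Rs fun h => h) atTop (Om S.P.Q gx gx) (fun h => nrm S.P h (H h 1))
      e ff fl e' ff' fr V V') :
    ∀ C c : ℝ, 0 < c → ∀ ε > 0, ∃ ε' > 0, ∃ Y : ℝ, ∃ ρ1 > 0, ∃ K ⊆ Om S.P.Q gx gx, IsCompact K ∧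
      ∀ ρ : ℝ, 0 < ρ → ρ < ρ1 → ∀ᶠ j : ℕ in atTop, ∀ G : ℂ → ℂ, GHypX C c Y G →
        LinT (Rs fun h => h) V e (fun j => al (e j) (ff j)) (fun j => be (e j) (fl j)) G j ρ ε' K →
        ‖G (Real.pi : ℝ) + Complex.I * G (Real.pi / 2 : ℝ)‖ ≤ ε ∧
        ‖G (Real.pi / 2 : ℝ) + Complex.I * G 0‖ ≤ ε :=
  g_fixed_shape S hT hol T.cff T.cfl T.t.toAB

end Pool.Agent.H53.FM
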